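import Mathlib

/-!
# The match-length automaton of a symmetric shift

`a` is a sequence over `Fin (M+1)` all of whose shifts lie lexicographically between its
reflection and itself.  A state `(t, s)` records the length of the longest suffix of the past that
is a prefix of `a`, resp. of the reflection of `a`.
-/

namespace Pool.Agent.L5helper76.EM

variable {M : ℕ}

/-- lexicographic order, unfolded -/
def LLe (x y : ℕ → Fin (M+1)) : Prop := ∀ n, (∀ i < n, x i = y i) → x n ≤ y n

/-- shifted sequence -/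
def sh (n : ℕ) (x : ℕ → Fin (M+1)) : ℕ → Fin (M+1) := fun i => x (n + i)

/-- reflected sequence -/
def rv (x : ℕ → Fin (M+1)) : ℕ → Fin (M+1) := fun i => (x i).rev

/-- points of the symmetric shift -/
def InV (a x : ℕ → Fin (M+1)) : Prop := ∀ n, LLe (rv a) (sh n x) ∧ LLe (sh n x) a

/-- prefix of length `n` -/
def pre : (ℕ → Fin (M+1)) → ℕ → List (Fin (M+1))
  | _, 0 => []
  | x, (n+1) => x 0 :: pre (sh 1 x) n

def ok (a : ℕ → Fin (M+1)) (p : ℕ × ℕ) (c : Fin (M+1)) : Prop :=
  (a p.2).rev ≤ c ∧ c ≤ a p.1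

def nx (a : ℕ → Fin (M+1)) (p : ℕ × ℕ) (c : Fin (M+1)) : ℕ × ℕ :=
  (if c = a p.1 then p.1 + 1 else 0, if c = (a p.2).rev then p.2 + 1 else 0)

def Rd (a : ℕ → Fin (M+1)) : ℕ × ℕ → List (Fin (M+1)) → Prop
  | _, [] => True
  | p, c :: u => ok a p c ∧ Rd a (nx a p c) u

def st (a : ℕ → Fin (M+1)) : ℕ × ℕ → List (Fin (M+1)) → ℕ × ℕ
  | p, [] => p
  | p, c :: u => st a (nx a p c) u

section basic

variable (a : ℕ → Fin (M+1))

@[simp] lemma Rd_nil (p : ℕ × ℕ) : Rd a p [] := trivial

@[simp] lemma Rd_cons (p : ℕ × ℕ) (c : Fin (M+1)) (u : List (Fin (M+1))) :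
    Rd a p (c :: u) ↔ ok a p c ∧ Rd a (nx a p c) u := Iff.rfl

@[simp] lemma st_nil (p : ℕ × ℕ) : st a p [] = p := rfl

@[simp] lemma st_cons (p : ℕ × ℕ) (c : Fin (M+1)) (u : List (Fin (M+1))) :
    st a p (c :: u) = st a (nx a p c) u := rfl

lemma Rd_append (p : ℕ × ℕ) (u v : List (Fin (M+1))) :
    Rd a p (u ++ v) ↔ Rd a p u ∧ Rd a (st a p u) v := by
  induction u generalizing p with
  | nil => simp
  | cons c u ih => simp [ih, and_assoc]

lemma st_append (p : ℕ × ℕ) (u v : List (Fin (M+1))) :
    st a p (u ++ v) = st a (st a p u) v := by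
  induction u generalizing p with
  | nil => simp
  | cons c u ih => simp [ih]

lemma ok_swap (p : ℕ × ℕ) (c : Fin (M+1)) : ok a p.swap c.rev ↔ ok a p c := by
  unfold ok
  simp only [Prod.fst_swap, Prod.snd_swap, Fin.rev_le_rev]
  constructor
  · rintro ⟨h1, h2⟩
    refine ⟨?_, h1⟩
    have := Fin.rev_le_rev.mpr h2
    simpa using this
  · rintro ⟨h1, h2⟩
    refine ⟨h2, ?_⟩
    have := Fin.rev_le_rev.mpr h1
    simpa using this

lemma nx_swap (p : ℕ × ℕ) (c : Fin (M+1)) : nx a p.swap c.rev = (nx a p c).swap := by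
  unfold nx
  have h1 : (c.rev = a p.2) ↔ (c = (a p.2).rev) := by
    constructor
    · intro h; rw [← h, Fin.rev_rev]
    · intro h; rw [h, Fin.rev_rev]
  simp [h1, Fin.rev_inj]

lemma Rd_swap (p : ℕ × ℕ) (u : List (Fin (M+1))) :
    Rd a p.swap (u.map Fin.rev) ↔ Rd a p u := by
  induction u generalizing p with
  | nil => simp
  | cons c u ih => simp only [List.map_cons, Rd_cons, ok_swap, nx_swap, ih]

lemma st_swap (p : ℕ × ℕ) (u : List (Fin (M+1))) :
    st a p.swap (u.map Fin.rev) = (st a p u).swap := by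
  induction u generalizing p with
  | nil => simp
  | cons c u ih => simp only [List.map_cons, st_cons, nx_swap, ih]

end basic

section prefixes

@[simp] lemma pre_zero (x : ℕ → Fin (M+1)) : pre x 0 = [] := rfl

lemma pre_succ (x : ℕ → Fin (M+1)) (n : ℕ) : pre x (n+1) = x 0 :: pre (sh 1 x) n := rfl

@[simp] lemma pre_length (x : ℕ → Fin (M+1)) (n : ℕ) : (pre x n).length = n := by
  induction n generalizing x with
  | zero => rfl
  | succ n ih => simp [pre_succ, ih]

@[simp] lemma sh_zero (x : ℕ → Fin (M+1)) : sh 0 x = x := by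
  funext i; simp [sh]

lemma sh_sh (m n : ℕ) (x : ℕ → Fin (M+1)) : sh m (sh n x) = sh (n + m) x := by
  funext i; simp [sh, add_assoc]

lemma pre_add (x : ℕ → Fin (M+1)) (m n : ℕ) : pre x (m + n) = pre x m ++ pre (sh m x) n := by
  induction m generalizing x with
  | zero => simp
  | succ m ih =>
    rw [show m + 1 + n = (m + n) + 1 by ring, pre_succ, pre_succ, ih, sh_sh]
    simp [add_comm]

lemma pre_congr (x y : ℕ → Fin (M+1)) (n : ℕ) : pre x n = pre y n ↔ ∀ i < n, x i = y i := by
  induction n generalizing x y with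
  | zero => simp
  | succ n ih =>
    rw [pre_succ, pre_succ, List.cons.injEq, ih]
    constructor
    · rintro ⟨h0, h⟩ i hi
      rcases i with _ | i
      · exact h0
      · have := h i (by omega)
        simpa [sh, add_comm] using this
    · intro h
      refine ⟨h 0 (by omega), fun i hi => ?_⟩
      have := h (1 + i) (by omega)
      simpa [sh] using this

lemma pre_rv (x : ℕ → Fin (M+1)) (n : ℕ) : pre (rv x) n = (pre x n).map Fin.rev := by
  induction n generalizing x with
  | zero => rfl
  | succ n ih =>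
    rw [pre_succ, pre_succ, List.map_cons, ← ih]
    rfl

@[simp] lemma rv_rv (x : ℕ → Fin (M+1)) : rv (rv x) = x := by
  funext i; simp [rv]

lemma LLe_rv {x y : ℕ → Fin (M+1)} (h : LLe x y) : LLe (rv y) (rv x) := by
  intro n hn
  have h1 : ∀ i < n, x i = y i := fun i hi => (Fin.rev_inj.mp (hn i hi)).symm
  exact Fin.rev_le_rev.mpr (h n h1)

lemma LLe_trans {x y z : ℕ → Fin (M+1)} (h : LLe x y) (h' : LLe y z) : LLe x z := by
  intro n hn
  have key : ∀ i < n, x i = y i := by
    intro i
    induction i using Nat.strong_induction_on with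
    | _ i ih =>
      intro hi
      have h1 : x i ≤ y i := h i (fun j hj => ih j hj (by omega))
      have h2 : y i ≤ z i := h' i (fun j hj => by
        rw [← ih j hj (by omega), hn j (by omega)])
      rw [← hn i hi] at h2
      exact le_antisymm h1 h2
  exact (h n key).trans (h' n (fun i hi => by rw [← key i hi, hn i hi]))

lemma LLe_refl (x : ℕ → Fin (M+1)) : LLe x x := fun _ _ => le_rfl

lemma LLe_antisymm {x y : ℕ → Fin (M+1)} (h : LLe x y) (h' : LLe y x) : x = y := by
  funext n
  induction n using Nat.strong_induction_on with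
  | _ n ih => exact le_antisymm (h n ih) (h' n (fun i hi => (ih i hi).symm))

lemma InV_rv {a x : ℕ → Fin (M+1)} (h : InV a x) : InV a (rv x) := by
  intro n
  obtain ⟨h1, h2⟩ := h n
  have h3 := LLe_rv h1
  rw [rv_rv] at h3
  exact ⟨LLe_rv h2, h3⟩

lemma InV_sh {a x : ℕ → Fin (M+1)} (h : InV a x) (m : ℕ) : InV a (sh m x) := by
  intro n
  rw [sh_sh]
  exact h _

end prefixes

section par

variable {a : ℕ → Fin (M+1)}

lemma par_up (h : InV a a) {n m : ℕ} (hm : ∀ i < m, a (n + i) = a i) : a (n + m) ≤ a m :=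
  (h n).2 m hm

lemma par_lo (h : InV a a) {n m : ℕ} (hm : ∀ i < m, a (n + i) = (a i).rev) :
    (a m).rev ≤ a (n + m) :=
  (h n).1 m (fun i hi => (hm i hi).symm)

/-- shorter matches allow more -/
lemma Rd_mono (h : InV a a) {t t' s : ℕ} (y : List (Fin (M+1)))
    (ht : t' ≤ t) (hr : ∀ i < t', a (t - t' + i) = a i) (hy : Rd a (t, s) y) :
    Rd a (t', s) y := by
  induction y generalizing t t' s with
  | nil => trivial
  | cons c y ih =>
    obtain ⟨⟨h1, h2⟩, h3⟩ := hy
    have h4 : a t ≤ a t' := by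
      have := par_up h hr
      rwa [show t - t' + t' = t by omega] at this
    simp only at h1 h2
    refine ⟨⟨h1, h2.trans h4⟩, ?_⟩
    unfold nx at h3 ⊢
    simp only at h3 ⊢
    by_cases hc : c = a t'
    · have hc' : c = a t := le_antisymm h2 (by rw [hc]; exact h4)
      rw [if_pos hc'] at h3
      rw [if_pos hc]
      refine ih (by omega) ?_ h3
      intro i hi
      rcases Nat.lt_succ_iff_lt_or_eq.mp hi with hi | hi
      · rw [show t + 1 - (t' + 1) + i = t - t' + i by omega]
        exact hr i hi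
      · rw [show t + 1 - (t' + 1) + i = t by omega, hi, ← hc', hc]
    · rw [if_neg hc]
      exact ih (Nat.zero_le _) (fun i hi => absurd hi (Nat.not_lt_zero _)) h3

lemma Rd_zero_left (h : InV a a) {t s : ℕ} {y : List (Fin (M+1))} (hy : Rd a (t, s) y) :
    Rd a (0, s) y :=
  Rd_mono h y (Nat.zero_le _) (fun _ hi => absurd hi (Nat.not_lt_zero _)) hy

lemma Rd_zero_right (h : InV a a) {t s : ℕ} {y : List (Fin (M+1))} (hy : Rd a (t, s) y) :
    Rd a (t, 0) y := by
  have h1 := (Rd_swap a (t, s) y).mpr hy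
  have h2 : Rd a (0, t) (y.map Fin.rev) := Rd_zero_left h h1
  exact (Rd_swap a (t, 0) y).mp h2

lemma Rd_zero (h : InV a a) {p : ℕ × ℕ} {y : List (Fin (M+1))} (hy : Rd a p y) :
    Rd a (0, 0) y :=
  Rd_zero_left h (Rd_zero_right h (t := p.1) (s := p.2) hy)

/-- consistency of a state -/
def Cs (a : ℕ → Fin (M+1)) (p : ℕ × ℕ) : Prop :=
  (∀ i < p.2, p.2 ≤ p.1 → a (p.1 - p.2 + i) = (a i).rev) ∧
  (∀ i < p.1, p.1 ≤ p.2 → a (p.2 - p.1 + i) = (a i).rev)

lemma Cs_zero : Cs a (0, 0) := ⟨fun i hi => by simp at hi, fun i hi => by simp at hi⟩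

lemma Cs_swap {p : ℕ × ℕ} (hp : Cs a p) : Cs a p.swap := ⟨hp.2, hp.1⟩

lemma Cs_nx {p : ℕ × ℕ} (hp : Cs a p) (c : Fin (M+1)) : Cs a (nx a p c) := by
  obtain ⟨t, s⟩ := p
  unfold nx
  simp only
  by_cases h1 : c = a t
  · by_cases h2 : c = (a s).rev
    · rw [if_pos h1, if_pos h2]
      obtain ⟨hp1, hp2⟩ := hp
      simp only at hp1 hp2
      refine ⟨fun i hi hle => ?_, fun i hi hle => ?_⟩
      · simp only at hi hle ⊢
        rcases Nat.lt_succ_iff_lt_or_eq.mp hi with hi | hi
        · rw [show t + 1 - (s + 1) + i = t - s + i by omega]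
          exact hp1 i hi (by omega)
        · rw [show t + 1 - (s + 1) + i = t by omega, hi, ← h1, h2]
      · simp only at hi hle ⊢
        rcases Nat.lt_succ_iff_lt_or_eq.mp hi with hi | hi
        · rw [show s + 1 - (t + 1) + i = s - t + i by omega]
          exact hp2 i hi (by omega)
        · rw [show s + 1 - (t + 1) + i = s by omega, hi, ← h1, h2, Fin.rev_rev]
    · rw [if_pos h1, if_neg h2]
      exact ⟨fun i hi => by simp at hi, fun i hi hle => by simp at hle⟩
  · rw [if_neg h1]
    refine ⟨fun i hi hle => ?_, fun i hi => by simp at hi⟩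
    simp only at hi hle
    omega

lemma Cs_st {p : ℕ × ℕ} (hp : Cs a p) (u : List (Fin (M+1))) : Cs a (st a p u) := by
  induction u generalizing p with
  | nil => exact hp
  | cons c u ih => exact ih (Cs_nx hp c)

lemma Cs_le (h : InV a a) {p : ℕ × ℕ} (hp : Cs a p) : (a p.2).rev ≤ a p.1 := by
  obtain ⟨t, s⟩ := p
  obtain ⟨hp1, hp2⟩ := hp
  simp only at *
  rcases le_total s t with hle | hle
  · have := par_lo h (n := t - s) (m := s) (fun i hi => hp1 i hi hle)
    rwa [show t - s + s = t by omega] at this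
  · have := par_lo h (n := s - t) (m := t) (fun i hi => hp2 i hi hle)
    rw [show s - t + t = s by omega] at this
    have h2 := Fin.rev_le_rev.mpr this
    simpa using h2

lemma ok_left (h : InV a a) {p : ℕ × ℕ} (hp : Cs a p) : ok a p (a p.1) := ⟨Cs_le h hp, le_rfl⟩

lemma ok_right (h : InV a a) {p : ℕ × ℕ} (hp : Cs a p) : ok a p (a p.2).rev := ⟨le_rfl, Cs_le h hp⟩

lemma Rd_cont (h : InV a a) {p : ℕ × ℕ} (hp : Cs a p) (n : ℕ) : Rd a p (pre (sh p.1 a) n) := by
  induction n generalizing p with
  | zero => trivial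
  | succ n ih =>
    rw [pre_succ, sh_sh]
    have h0 : sh p.1 a 0 = a p.1 := by simp [sh]
    rw [h0]
    refine ⟨ok_left h hp, ?_⟩
    have h1 := ih (Cs_nx hp (a p.1))
    have h2 : (nx a p (a p.1)).1 = p.1 + 1 := by simp [nx]
    rwa [h2] at h1

lemma st_cont_fst (t s n : ℕ) : (st a (t, s) (pre (sh t a) n)).1 = t + n := by
  induction n generalizing t s with
  | zero => rfl
  | succ n ih =>
    rw [pre_succ, sh_sh]
    have h0 : sh t a 0 = a t := by simp [sh]
    rw [h0, st_cons]
    have h1 : nx a (t, s) (a t) = (t + 1, (nx a (t, s) (a t)).2) := by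
      apply Prod.ext
      · simp [nx]
      · rfl
    rw [h1, ih]
    omega

/-- a word readable from the start is a prefix of a point of the shift, and conversely -/
lemma LLe_of_Rd {y : ℕ → Fin (M+1)} (hy : ∀ k, Rd a (0, 0) (pre y k)) :
    LLe y a := by
  intro m hm
  have h1 := hy (m + 1)
  rw [pre_add, Rd_append, (pre_congr y a m).mpr hm] at h1
  have h2 := h1.2
  rw [pre_succ] at h2
  have h3 := h2.1.2
  have h4 := st_cont_fst (a := a) 0 0 m
  rw [sh_zero, Nat.zero_add] at h4
  rw [h4] at h3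
  simpa [sh] using h3

lemma InV_of_Rd (h : InV a a) {x : ℕ → Fin (M+1)} (hx : ∀ k, Rd a (0, 0) (pre x k)) :
    InV a x := by
  have key : ∀ n k, Rd a (0, 0) (pre (sh n x) k) := by
    intro n k
    have h1 := hx (n + k)
    rw [pre_add, Rd_append] at h1
    exact Rd_zero h h1.2
  intro n
  refine ⟨?_, LLe_of_Rd (key n)⟩
  have h2 : LLe (rv (sh n x)) a := by
    apply LLe_of_Rd
    intro k
    rw [pre_rv]
    exact (Rd_swap a (0, 0) _).mpr (key n k)
  simpa using LLe_rv h2

lemma Rd_of_InV {x : ℕ → Fin (M+1)} (hx : InV a x) (k : ℕ) : Rd a (0, 0) (pre x k) := by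
  have key : ∀ k n t s, t ≤ n → s ≤ n → (∀ i < t, x (n - t + i) = a i) →
      (∀ i < s, x (n - s + i) = (a i).rev) → Rd a (t, s) (pre (sh n x) k) := by
    intro k
    induction k with
    | zero => intros; trivial
    | succ k ih =>
      intro n t s ht hs h1 h2
      rw [pre_succ, sh_sh]
      have h0 : sh n x 0 = x n := by simp [sh]
      rw [h0]
      have hup : x n ≤ a t := by
        have := (hx (n - t)).2 t h1
        simp only [sh] at this
        rwa [show n - t + t = n by omega] at this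
      have hlo : (a s).rev ≤ x n := by
        have := (hx (n - s)).1 s (fun i hi => (h2 i hi).symm)
        simp only [sh, rv] at this
        rwa [show n - s + s = n by omega] at this
      refine ⟨⟨hlo, hup⟩, ?_⟩
      unfold nx
      simp only
      refine ih (n + 1) _ _ (by split_ifs <;> omega) (by split_ifs <;> omega) ?_ ?_
      · intro i hi
        by_cases hc : x n = a t
        · rw [if_pos hc] at hi ⊢
          rcases Nat.lt_succ_iff_lt_or_eq.mp hi with hi | hi
          · rw [show n + 1 - (t + 1) + i = n - t + i by omega]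
            exact h1 i hi
          · rw [show n + 1 - (t + 1) + i = n by omega, hi, hc]
        · rw [if_neg hc] at hi
          omega
      · intro i hi
        by_cases hc : x n = (a s).rev
        · rw [if_pos hc] at hi ⊢
          rcases Nat.lt_succ_iff_lt_or_eq.mp hi with hi | hi
          · rw [show n + 1 - (s + 1) + i = n - s + i by omega]
            exact h2 i hi
          · rw [show n + 1 - (s + 1) + i = n by omega, hi, hc]
        · rw [if_neg hc] at hi
          omega
  have := key k 0 0 0 le_rfl le_rfl (fun i hi => by omega) (fun i hi => by omega)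
  rwa [sh_zero] at this

/-- `u` followed by `x` -/
def cat : List (Fin (M+1)) → (ℕ → Fin (M+1)) → ℕ → Fin (M+1)
  | [], x => x
  | c :: u, x => fun i => if i = 0 then c else cat u x (i - 1)

lemma sh_one_cat (c : Fin (M+1)) (u : List (Fin (M+1))) (x : ℕ → Fin (M+1)) :
    sh 1 (cat (c :: u) x) = cat u x := by
  funext i
  simp [sh, cat]

lemma pre_cat (u : List (Fin (M+1))) (x : ℕ → Fin (M+1)) (k : ℕ) :
    pre (cat u x) (u.length + k) = u ++ pre x k := by
  induction u with
  | nil => simp [cat]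
  | cons c u ih =>
    rw [List.length_cons, show u.length + 1 + k = (u.length + k) + 1 by ring, pre_succ,
      sh_one_cat, ih]
    simp [cat]

lemma exists_InV (h : InV a a) {u : List (Fin (M+1))} (hu : Rd a (0, 0) u) :
    ∃ x, InV a x ∧ pre x u.length = u := by
  refine ⟨cat u (sh (st a (0, 0) u).1 a), ?_, ?_⟩
  · apply InV_of_Rd h
    intro k
    have h1 : Rd a (0, 0) (pre (cat u (sh (st a (0, 0) u).1 a)) (u.length + k)) := by
      rw [pre_cat, Rd_append]
      exact ⟨hu, Rd_cont h (Cs_st Cs_zero u) k⟩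
    rw [add_comm, pre_add, Rd_append] at h1
    exact h1.1
  · have := pre_cat u (sh (st a (0, 0) u).1 a) 0
    simpa using this

end par

end Pool.Agent.L5helper76.EM
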