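import Pool.Agent.L5helper76.EM.Auto

/-! # Counting readable words -/

namespace Pool.Agent.L5helper76.EM

open scoped Classical

variable {M : ℕ}

/-- all words of length `n` -/
noncomputable def allW (M n : ℕ) : Finset (List (Fin (M+1))) :=
  (List.finite_length_eq (Fin (M+1)) n).toFinset

@[simp] lemma mem_allW {n : ℕ} {u : List (Fin (M+1))} : u ∈ allW M n ↔ u.length = n := by
  simp [allW]

lemma sum_allW_add {β : Type*} [AddCommMonoid β] (m k : ℕ) (f : List (Fin (M+1)) → β) :
    ∑ y ∈ allW M (m + k), f y = ∑ u ∈ allW M m, ∑ z ∈ allW M k, f (u ++ z) := by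
  rw [← Finset.sum_product' (f := fun u z => f (u ++ z))]
  symm
  refine Finset.sum_nbij' (i := fun p => p.1 ++ p.2) (j := fun y => (y.take m, y.drop m))
    ?_ ?_ ?_ ?_ ?_
  · rintro ⟨u, z⟩ h
    simp only [Finset.mem_product, mem_allW] at h
    simp [h.1, h.2]
  · intro y hy
    simp only [mem_allW] at hy
    simp [hy]
  · rintro ⟨u, z⟩ h
    simp only [Finset.mem_product, mem_allW] at h
    simp [← h.1]
  · intro y hy
    simp
  · rintro ⟨u, z⟩ h
    rfl

lemma sum_allW_one {β : Type*} [AddCommMonoid β] (f : List (Fin (M+1)) → β) :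
    ∑ z ∈ allW M 1, f z = ∑ c : Fin (M+1), f [c] := by
  symm
  refine Finset.sum_nbij (i := fun c => [c]) ?_ ?_ ?_ ?_
  · intro c _; simp
  · intro c _ d _ h; simpa using h
  · intro z hz
    have h : z.length = 1 := by simpa using hz
    obtain ⟨c, rfl⟩ := List.length_eq_one_iff.mp h
    exact ⟨c, by simp, rfl⟩
  · intro c _; rfl

/-- number of words of length `n` with property `P` -/
noncomputable def num (P : List (Fin (M+1)) → Prop) (n : ℕ) : ℕ := ((allW M n).filter P).card

lemma num_eq_sum (P : List (Fin (M+1)) → Prop) (n : ℕ) :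
    num P n = ∑ u ∈ allW M n, if P u then 1 else 0 := by
  rw [num, Finset.card_filter]

lemma num_mono {P Q : List (Fin (M+1)) → Prop} {n : ℕ} (h : ∀ u, u.length = n → P u → Q u) :
    num P n ≤ num Q n := by
  apply Finset.card_le_card
  intro u hu
  simp only [Finset.mem_filter, mem_allW] at hu ⊢
  exact ⟨hu.1, h u hu.1 hu.2⟩

lemma num_congr {P Q : List (Fin (M+1)) → Prop} {n : ℕ} (h : ∀ u, u.length = n → (P u ↔ Q u)) :
    num P n = num Q n :=
  le_antisymm (num_mono fun u hu => (h u hu).mp) (num_mono fun u hu => (h u hu).mpr)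

lemma num_add (P : List (Fin (M+1)) → Prop) (m k : ℕ) :
    num P (m + k) = ∑ u ∈ allW M m, num (fun z => P (u ++ z)) k := by
  simp only [num_eq_sum]
  rw [sum_allW_add]

lemma num_add_le' {P P₁ P₂ : List (Fin (M+1)) → Prop} (m k : ℕ)
    (h : ∀ u z, u.length = m → z.length = k → P (u ++ z) → P₁ u ∧ P₂ z) :
    num P (m + k) ≤ num P₁ m * num P₂ k := by
  rw [num_add, num_eq_sum P₁ m, Finset.sum_mul]
  apply Finset.sum_le_sum
  intro u hu1
  rw [mem_allW] at hu1
  by_cases hu : P₁ u
  · rw [if_pos hu, one_mul]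
    exact num_mono fun z hz1 hz => (h u z hu1 hz1 hz).2
  · rw [if_neg hu, zero_mul]
    have : num (fun z => P (u ++ z)) k = 0 := by
      rw [num_eq_sum]
      apply Finset.sum_eq_zero
      intro z hz
      rw [mem_allW] at hz
      rw [if_neg (fun hz' => hu (h u z hu1 hz hz').1)]
    rw [this]

lemma num_add_le {P Q : List (Fin (M+1)) → Prop} (m k : ℕ)
    (h1 : ∀ u z, P (u ++ z) → P u) (h2 : ∀ u z, P (u ++ z) → Q z) :
    num P (m + k) ≤ num P m * num Q k :=
  num_add_le' m k fun u z _ _ h => ⟨h1 u z h, h2 u z h⟩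

lemma num_or_le (P Q : List (Fin (M+1)) → Prop) (n : ℕ) :
    num (fun u => P u ∨ Q u) n ≤ num P n + num Q n := by
  rw [num_eq_sum, num_eq_sum, num_eq_sum, ← Finset.sum_add_distrib]
  apply Finset.sum_le_sum
  intro u _
  by_cases h1 : P u <;> by_cases h2 : Q u <;> simp [h1, h2]

lemma num_exists_le (P : ℕ → List (Fin (M+1)) → Prop) (r n : ℕ) :
    num (fun u => ∃ i < r, P i u) n ≤ ∑ i ∈ Finset.range r, num (P i) n := by
  induction r with
  | zero =>
    simp [num]
  | succ r ih =>
    rw [Finset.sum_range_succ]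
    refine le_trans (num_mono (Q := fun u => (∃ i < r, P i u) ∨ P r u) ?_) ?_
    · rintro u _ ⟨i, hi, hu⟩
      rcases Nat.lt_succ_iff_lt_or_eq.mp hi with h | h
      · exact Or.inl ⟨i, h, hu⟩
      · exact Or.inr (h ▸ hu)
    · exact (num_or_le _ _ n).trans (Nat.add_le_add_right ih _)

lemma num_true_pos (n : ℕ) : 0 < (allW M n).card := by
  apply Finset.card_pos.mpr
  exact ⟨List.replicate n 0, by simp⟩

section cnt

variable (a : ℕ → Fin (M+1))

/-- number of words of length `n` readable from `p` -/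
noncomputable def cnt (p : ℕ × ℕ) (n : ℕ) : ℕ := num (Rd a p) n

lemma cnt_le_N {a : ℕ → Fin (M+1)} (h : InV a a) (p : ℕ × ℕ) (n : ℕ) :
    cnt a p n ≤ cnt a (0, 0) n :=
  num_mono fun _ _ hu => Rd_zero h hu

lemma num_map_rev (P : List (Fin (M+1)) → Prop) (n : ℕ) :
    num (fun u => P (u.map Fin.rev)) n = num P n := by
  unfold num
  apply Finset.card_nbij' (i := fun u => u.map Fin.rev) (j := fun u => u.map Fin.rev)
  · intro u hu
    simp only [Finset.coe_filter, mem_allW, Set.mem_ofPred_eq, List.length_map] at hu ⊢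
    exact hu
  · intro u hu
    simp only [Finset.coe_filter, mem_allW, Set.mem_ofPred_eq, List.length_map, List.map_map] at hu ⊢
    refine ⟨hu.1, ?_⟩
    have : (Fin.rev ∘ Fin.rev : Fin (M+1) → Fin (M+1)) = id := by funext i; simp
    rw [this, List.map_id]
    exact hu.2
  · intro u _
    have : (Fin.rev ∘ Fin.rev : Fin (M+1) → Fin (M+1)) = id := by funext i; simp
    simp [this]
  · intro u _
    have : (Fin.rev ∘ Fin.rev : Fin (M+1) → Fin (M+1)) = id := by funext i; simp
    simp [this]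

lemma cnt_swap (p : ℕ × ℕ) (n : ℕ) : cnt a p.swap n = cnt a p n := by
  unfold cnt
  rw [← num_map_rev (Rd a p.swap)]
  exact num_congr fun u _ => Rd_swap a p u

lemma cnt_add (p : ℕ × ℕ) (m k : ℕ) :
    cnt a p (m + k) = ∑ u ∈ allW M m, if Rd a p u then cnt a (st a p u) k else 0 := by
  unfold cnt
  rw [num_add]
  apply Finset.sum_congr rfl
  intro u _
  split_ifs with hu
  · exact num_congr fun z _ => by simp [Rd_append, hu]
  · rw [num_eq_sum]
    apply Finset.sum_eq_zero
    intro z _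
    rw [if_neg (fun hz => hu ((Rd_append a p u z).mp hz).1)]

lemma cnt_st_le {p : ℕ × ℕ} {v : List (Fin (M+1))} (hv : Rd a p v) (n : ℕ) :
    cnt a (st a p v) n ≤ cnt a p (v.length + n) := by
  rw [cnt_add]
  have : cnt a (st a p v) n = if Rd a p v then cnt a (st a p v) n else 0 := by rw [if_pos hv]
  rw [this]
  exact Finset.single_le_sum (f := fun u => if Rd a p u then cnt a (st a p u) n else 0)
    (fun _ _ => Nat.zero_le _) (by simp)

lemma cnt_two_le {p : ℕ × ℕ} {u v : List (Fin (M+1))} (huv : u ≠ v) {m : ℕ} (hu1 : u.length = m)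
    (hv1 : v.length = m) (hu : Rd a p u) (hv : Rd a p v) (n : ℕ) :
    cnt a (st a p u) n + cnt a (st a p v) n ≤ cnt a p (m + n) := by
  rw [cnt_add]
  have h1 : ({u, v} : Finset (List (Fin (M+1)))) ⊆ allW M m := by
    intro w hw
    simp only [Finset.mem_insert, Finset.mem_singleton] at hw
    rcases hw with rfl | rfl <;> simpa
  refine le_trans ?_ (Finset.sum_le_sum_of_subset h1)
  rw [Finset.sum_pair huv, if_pos hu, if_pos hv]

variable {a}

lemma cnt_pos (h : InV a a) {p : ℕ × ℕ} (hp : Cs a p) (n : ℕ) : 0 < cnt a p n := by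
  apply Finset.card_pos.mpr
  exact ⟨pre (sh p.1 a) n, by simp [Rd_cont h hp n]⟩

lemma cnt_mono (h : InV a a) {p : ℕ × ℕ} (hp : Cs a p) {m n : ℕ} (hmn : m ≤ n) :
    cnt a p m ≤ cnt a p n := by
  obtain ⟨k, rfl⟩ := Nat.exists_eq_add_of_le hmn
  rw [cnt_add, cnt, num_eq_sum]
  apply Finset.sum_le_sum
  intro u _
  split_ifs with hu
  · exact cnt_pos h (Cs_st hp u) k
  · exact le_rfl

lemma cnt_add_le (h : InV a a) (p : ℕ × ℕ) (m k : ℕ) :
    cnt a p (m + k) ≤ cnt a p m * cnt a (0, 0) k :=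
  num_add_le m k (fun u z hz => ((Rd_append a p u z).mp hz).1)
    (fun u z hz => Rd_zero h ((Rd_append a p u z).mp hz).2)

/-- states from which a positive proportion of all words is readable -/
def Good (a : ℕ → Fin (M+1)) (p : ℕ × ℕ) : Prop := ∃ C, ∀ n, cnt a (0, 0) n ≤ C * cnt a p n

lemma Good_of_path (h : InV a a) {p : ℕ × ℕ} {v : List (Fin (M+1))} (hv : Rd a p v)
    (hg : Good a (st a p v)) : Good a p := by
  obtain ⟨C, hC⟩ := hg
  refine ⟨C * cnt a (0, 0) v.length, fun n => ?_⟩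
  calc cnt a (0, 0) n ≤ C * cnt a (st a p v) n := hC n
    _ ≤ C * cnt a p (v.length + n) := Nat.mul_le_mul_left _ (cnt_st_le a hv n)
    _ = C * cnt a p (n + v.length) := by rw [add_comm]
    _ ≤ C * (cnt a p n * cnt a (0, 0) v.length) := Nat.mul_le_mul_left _ (cnt_add_le h p n _)
    _ = C * cnt a (0, 0) v.length * cnt a p n := by ring

lemma Good_swap {p : ℕ × ℕ} (hg : Good a p) : Good a p.swap := by
  obtain ⟨C, hC⟩ := hg
  exact ⟨C, fun n => by rw [cnt_swap]; exact hC n⟩

end cnt

end Pool.Agent.L5helper76.EM
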