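import Pool.Agent.L5helper76.EM.Auto

/-! # The degenerate case: a shift of `a` is the reflection of `a` -/

namespace Pool.Agent.L5helper76.EM

variable {M : ℕ} {a : ℕ → Fin (M+1)}

/-- transitivity of the language of the shift -/
def Tr (a : ℕ → Fin (M+1)) : Prop :=
  ∀ u w, Rd a (0, 0) u → Rd a (0, 0) w → ∃ v, Rd a (0, 0) (u ++ (v ++ w))

/-- words occurring at the beginning of points of `X` -/
def BX (X : Set (ℕ → Fin (M+1))) (u : List (Fin (M+1))) : Prop := ∃ x ∈ X, pre x u.length = u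

lemma sh_mem {X : Set (ℕ → Fin (M+1))} (hX : ∀ x ∈ X, sh 1 x ∈ X) (n : ℕ) :
    ∀ x ∈ X, sh n x ∈ X := by
  induction n with
  | zero => intro x hx; simpa using hx
  | succ n ih =>
    intro x hx
    have := hX _ (ih x hx)
    rwa [sh_sh] at this

lemma sh_mul_eq {P : ℕ} (hP : sh P a = a) (c : ℕ) : sh (P * c) a = a := by
  induction c with
  | zero => simp
  | succ c ih => rw [Nat.mul_succ, ← sh_sh, ih, hP]

lemma eq_of_deg {k : ℕ} (hk : sh k a = rv a) {x : ℕ → Fin (M+1)} (hx : InV a x)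
    (hxk : pre x k = pre a k) : x = a := by
  have h0 := (hx 0).2
  rw [sh_zero] at h0
  refine LLe_antisymm h0 ?_
  intro n hn
  rcases lt_or_ge n k with h | h
  · exact ((pre_congr x a k).mp hxk n h).ge
  · have h1 := (hx k).1 (n - k) (fun i hi => by
      rw [← hk]
      simp only [sh]
      exact hn (k + i) (by omega))
    rw [← hk] at h1
    simp only [sh] at h1
    rwa [show k + (n - k) = n by omega] at h1

theorem nondeg (h : InV a a) (hT : Tr a) {X : Set (ℕ → Fin (M+1))}
    (hXs : ∀ x ∈ X, sh 1 x ∈ X) (hXV : ∀ x ∈ X, InV a x) (hXn : X.Nonempty)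
    {w0 : List (Fin (M+1))} (hw0 : Rd a (0, 0) w0) (hw0' : ¬ BX X w0) (k : ℕ) :
    sh k a ≠ rv a := by
  intro hk
  have h1 : ∀ x i, InV a x → pre (sh i x) k = pre a k → sh i x = a := fun x i hx hp =>
    eq_of_deg hk (InV_sh hx i) hp
  have hL : ∀ n, Rd a (0, 0) (pre a n) := fun n => Rd_of_InV h n
  have h2 : ∀ w, Rd a (0, 0) w → ∃ v : List (Fin (M+1)), pre (sh (k + v.length) a) w.length = w := by
    intro w hw
    obtain ⟨v, hv⟩ := hT (pre a k) w (hL k) hw
    obtain ⟨x, hx, hxp⟩ := exists_InV h hv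
    refine ⟨v, ?_⟩
    rw [List.length_append, List.length_append, pre_length, pre_add] at hxp
    obtain ⟨e1, e2⟩ := List.append_inj hxp (by simp)
    have hxa : x = a := eq_of_deg hk hx e1
    rw [hxa, pre_add, sh_sh] at e2
    exact (List.append_inj e2 (by simp)).2
  obtain ⟨P, hP, hPa⟩ : ∃ P, 0 < P ∧ sh P a = a := by
    rcases Nat.eq_zero_or_pos k with hk0 | hk0
    · exact ⟨1, one_pos, h1 a 1 h (by rw [hk0]; rfl)⟩
    · obtain ⟨v, hv⟩ := h2 (pre a k) (hL k)
      rw [pre_length] at hv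
      exact ⟨k + v.length, by omega, h1 a _ h hv⟩
  obtain ⟨x, hx⟩ := hXn
  obtain ⟨v, hv⟩ := h2 (pre x (P + k)) (Rd_of_InV (hXV x hx) _)
  rw [pre_length] at hv
  set j := k + v.length with hj
  -- choose `i < P` with `P ∣ j + i`
  obtain ⟨i, hi, c, hc⟩ : ∃ i < P, ∃ c, j + i = P * c := by
    refine ⟨P * (j / P + 1) - j - (if j % P = 0 then P else 0), ?_, ?_⟩
    · have h3 := Nat.div_add_mod j P
      have h4 := Nat.mod_lt j hP
      rw [Nat.mul_succ]
      split_ifs with h5
      · omega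
      · omega
    · have h3 := Nat.div_add_mod j P
      have h4 := Nat.mod_lt j hP
      by_cases h5 : j % P = 0
      · refine ⟨j / P, ?_⟩
        rw [if_pos h5, Nat.mul_succ]
        omega
      · refine ⟨j / P + 1, ?_⟩
        rw [if_neg h5, Nat.mul_succ]
        omega
  have h5 : sh (j + i) a = a := by rw [hc]; exact sh_mul_eq hPa c
  have h6 : pre (sh i x) k = pre a k := by
    rw [pre_congr]
    intro l hl
    have h7 := (pre_congr _ _ _).mp hv (i + l) (by omega)
    have h8 : sh (j + i) a l = a l := by rw [h5]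
    simp only [sh] at h7 h8 ⊢
    rw [← h7, ← h8]
    exact congrArg a (by omega)
  have h7 := h1 x i (hXV x hx) h6
  have h8 : a ∈ X := by
    rw [← h7]
    exact sh_mem hXs i x hx
  obtain ⟨v', hv'⟩ := h2 w0 hw0
  exact hw0' ⟨_, sh_mem hXs _ a h8, hv'⟩

end Pool.Agent.L5helper76.EM
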