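import Pool.Agent.L5helper76.EM.Index

/-! # Every reachable state is good, and the language grows exponentially -/

namespace Pool.Agent.L5helper76.EM

open scoped Classical

variable {M : ℕ} {a : ℕ → Fin (M+1)}

/-- a state all of whose descendants have the same least index -/
lemma exists_stable (hND : ∀ k, sh k a ≠ rv a) (h : InV a a) (hT : Tr a) {q : ℕ × ℕ}
    (hq : Reach a (0, 0) q) :
    ∃ p r, Reach a q p ∧ ∀ p', Reach a p p' → MinInd a p' r := by
  obtain ⟨r0, hr0⟩ := exists_minInd hND h (hq.cs Cs_zero)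
  set P : ℕ → Prop := fun r => ∃ p, Reach a q p ∧ MinInd a p r with hP
  have h0 : P r0 := ⟨q, Reach.rfl' q, hr0⟩
  have h1 : P (Nat.findGreatest P 2) :=
    Nat.findGreatest_spec (minInd_le hND h hT hq hr0) h0
  obtain ⟨p, hp1, hp2⟩ := h1
  refine ⟨p, Nat.findGreatest P 2, hp1, fun p' hp' => ?_⟩
  have hqp' := hp1.trans hp'
  obtain ⟨r', hr'⟩ := exists_minInd hND h ((hq.trans hqp').cs Cs_zero)
  have h2 : r' ≤ Nat.findGreatest P 2 :=
    Nat.le_findGreatest (minInd_le hND h hT (hq.trans hqp') hr') ⟨p', hqp', hr'⟩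
  have h3 : Nat.findGreatest P 2 ≤ r' := hp2.2 r' (hr'.1.of_reach hp')
  rwa [le_antisymm h2 h3] at hr'

lemma cnt_of_ind {s : ℕ × ℕ} {r : ℕ} (hs : Ind a s r) :
    ∃ m, ∀ n, cnt a (r, 0) n ≤ cnt a s (m + n) := by
  rcases hs with ⟨v, hv, hv'⟩ | ⟨v, hv, hv'⟩
  · refine ⟨v.length, fun n => ?_⟩
    have := cnt_st_le a hv n
    rwa [hv'] at this
  · refine ⟨v.length, fun n => ?_⟩
    have := cnt_st_le a hv n
    rw [hv'] at this
    rw [← cnt_swap]
    exact this

lemma doubling (hND : ∀ k, sh k a ≠ rv a) (h : InV a a) {p : ℕ × ℕ} {r : ℕ} (hp : Cs a p)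
    (hst : ∀ p', Reach a p p' → MinInd a p' r) :
    ∃ κ, 1 ≤ κ ∧ ∀ n, 2 * cnt a (r, 0) n ≤ cnt a (r, 0) (κ + n) := by
  obtain ⟨s, hs, hsc⟩ : ∃ s, Reach a p s ∧ ∀ n, cnt a s n = cnt a (r, 0) n := by
    rcases (hst p (Reach.rfl' p)).1 with h1 | h1
    · exact ⟨_, h1, fun n => rfl⟩
    · exact ⟨_, h1, fun n => (cnt_swap a (0, r) n).symm⟩
  have hCs := hs.cs hp
  obtain ⟨w, c, c', hcc, h1, h2, h3, h4⟩ := branch hND h hCs
  have hR1 : Reach a p (st a s (w ++ [c])) := hs.trans ⟨_, h1, rfl⟩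
  have hR2 : Reach a p (st a s (w ++ [c'])) := hs.trans ⟨_, h2, rfl⟩
  obtain ⟨m1, hm1⟩ := cnt_of_ind (hst _ hR1).1
  obtain ⟨m2, hm2⟩ := cnt_of_ind (hst _ hR2).1
  refine ⟨w.length + 1 + (m1 + m2), by omega, fun n => ?_⟩
  rw [← hsc, ← hsc, add_assoc (w.length + 1) (m1 + m2) n]
  have h5 := cnt_two_le a (p := s) (u := w ++ [c]) (v := w ++ [c']) (m := w.length + 1)
    (by simpa using hcc) (by simp) (by simp) h1 h2 (m1 + m2 + n)
  have h6 : cnt a (r, 0) n ≤ cnt a (st a s (w ++ [c])) (m1 + m2 + n) := by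
    have h7 := hm1 (m2 + n)
    rw [← add_assoc] at h7
    exact (cnt_mono h (Cs_pure r) (by omega)).trans h7
  have h8 : cnt a (r, 0) n ≤ cnt a (st a s (w ++ [c'])) (m1 + m2 + n) := by
    have h9 := hm2 (m1 + n)
    rw [← add_assoc, add_comm m2 m1] at h9
    exact (cnt_mono h (Cs_pure r) (by omega)).trans h9
  rw [hsc n]
  omega

/-- words of length `n` readable from a pure state (upper type) with index in `Ind` -/
noncomputable def Dn (a : ℕ → Fin (M+1)) (p : ℕ × ℕ) (n : ℕ) : ℕ :=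
  num (fun z => ∃ t, Ind a p t ∧ Rd a (t, 0) z) n

lemma Dn_step (h : InV a a) {p : ℕ × ℕ} {r : ℕ} (hr : MinInd a p r) (hr1 : 1 ≤ r) (n : ℕ) :
    Dn a p (r + n) ≤ cnt a (r, 0) n + Dn a p n := by
  obtain ⟨c0, hc0⟩ : ∃ c0 : Fin (M+1), ∀ c : Fin (M+1),
      (c : ℕ) = ((a (r - 1)).rev : ℕ) + 1 → c = c0 := by
    by_cases hc : ∃ c : Fin (M+1), (c : ℕ) = ((a (r - 1)).rev : ℕ) + 1
    · obtain ⟨c0, hc0⟩ := hc
      exact ⟨c0, fun c hc => Fin.ext (by rw [hc, hc0])⟩
    · exact ⟨0, fun c hc' => absurd ⟨c, hc'⟩ hc⟩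
  have hsub : (allW M (r + n)).filter (fun z => ∃ t, Ind a p t ∧ Rd a (t, 0) z) ⊆
      ((allW M n).filter (Rd a (0, r))).image
        (fun z => pre (rv a) (r - 1) ++ (a (r - 1)).rev :: z) ∪
      ((allW M n).filter (fun z => ∃ t, Ind a p t ∧ Rd a (t, 0) z)).image
        (fun z => pre (rv a) (r - 1) ++ c0 :: z) := by
    intro y hy
    simp only [Finset.mem_filter, mem_allW] at hy
    obtain ⟨hyl, t, ht, hRd⟩ := hy
    obtain ⟨c, z, hyz, hor⟩ := block h hr.2 hr1 ht (by omega) hRd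
    have hzl : z.length = n := by
      have := congrArg List.length hyz
      simp only [List.length_append, pre_length, List.length_cons] at this
      omega
    simp only [Finset.mem_union, Finset.mem_image, Finset.mem_filter, mem_allW]
    rcases hor with ⟨h1, h2⟩ | ⟨h1, h2, h3⟩
    · left
      exact ⟨z, ⟨hzl, h2⟩, by rw [hyz, h1]⟩
    · right
      exact ⟨z, ⟨hzl, t + r, h3, h2⟩, by rw [hyz, hc0 c h1]⟩
  calc Dn a p (r + n) ≤ _ := Finset.card_le_card hsub
    _ ≤ _ + _ := Finset.card_union_le _ _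
    _ ≤ ((allW M n).filter (Rd a (0, r))).card +
        ((allW M n).filter (fun z => ∃ t, Ind a p t ∧ Rd a (t, 0) z)).card :=
      Nat.add_le_add Finset.card_image_le Finset.card_image_le
    _ = cnt a (r, 0) n + Dn a p n := by
      rw [← cnt_swap a (r, 0) n]
      rfl

lemma N_le_Dn (h : InV a a) (hT : Tr a) {p : ℕ × ℕ} (hp : Reach a (0, 0) p) {r : ℕ}
    (hr : MinInd a p r) (hr1 : 1 ≤ r) :
    ∃ C, ∀ n, cnt a (0, 0) n ≤ C * Dn a p n := by
  refine ⟨∑ i ∈ Finset.range r, 2 * ((allW M i).card * (allW M (r - i)).card), fun n => ?_⟩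
  set Q : List (Fin (M+1)) → Prop := fun y => ∃ t, Ind a p t ∧ RdP a t y with hQ
  have hQn : num Q n ≤ 2 * Dn a p n := by
    have h1 : num Q n ≤ num (fun y => (∃ t, Ind a p t ∧ Rd a (t, 0) y) ∨
        (∃ t, Ind a p t ∧ Rd a (t, 0) (y.map Fin.rev))) n := by
      apply num_mono
      rintro u _ ⟨t, ht, h2 | h2⟩
      · exact Or.inl ⟨t, ht, h2⟩
      · exact Or.inr ⟨t, ht, (Rd_swap a (0, t) u).mpr h2⟩
    refine h1.trans ((num_or_le _ _ n).trans ?_)
    rw [num_map_rev (fun y => ∃ t, Ind a p t ∧ Rd a (t, 0) y), two_mul]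
    exact le_rfl
  have h2 : cnt a (0, 0) n ≤ cnt a (0, 0) (r + n) := cnt_mono h Cs_zero (by omega)
  have h3 : cnt a (0, 0) (r + n) ≤ num (fun w => ∃ i < r, Q ((w.drop i).take n)) (r + n) := by
    apply num_mono
    intro w _ hw
    obtain ⟨i, hi, t', ht', h4⟩ := word_test h hT hp hr hr1 hw
    refine ⟨i, hi, t', ht', ?_⟩
    rw [← List.take_append_drop n (w.drop i)] at h4
    exact RdP_append h4
  have h5 : ∀ i ∈ Finset.range r, num (fun w => Q ((w.drop i).take n)) (r + n) ≤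
      2 * ((allW M i).card * (allW M (r - i)).card) * Dn a p n := by
    intro i hi
    rw [Finset.mem_range] at hi
    have e1 : r + n = i + (n + (r - i)) := by omega
    rw [e1]
    have h6 : num (fun w => Q ((w.drop i).take n)) (i + (n + (r - i))) ≤
        num (M := M) (fun _ => True) i * num (fun z => Q (z.take n)) (n + (r - i)) := by
      apply num_add_le'
      intro u z hu hz hP
      refine ⟨trivial, ?_⟩
      rwa [List.drop_left' hu] at hP
    have h7 : num (fun z => Q (z.take n)) (n + (r - i)) ≤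
        num Q n * num (M := M) (fun _ => True) (r - i) := by
      apply num_add_le'
      intro u z hu hz hP
      refine ⟨?_, trivial⟩
      rwa [List.take_left' hu] at hP
    have h8 : ∀ k, num (M := M) (fun _ => True) k = (allW M k).card := by
      intro k
      rw [num_eq_sum]
      simp
    rw [h8] at h6 h7
    calc _ ≤ _ := h6
      _ ≤ (allW M i).card * (num Q n * (allW M (r - i)).card) := Nat.mul_le_mul_left _ h7
      _ ≤ (allW M i).card * (2 * Dn a p n * (allW M (r - i)).card) :=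
        Nat.mul_le_mul_left _ (Nat.mul_le_mul_right _ hQn)
      _ = _ := by ring
  calc cnt a (0, 0) n ≤ _ := h2
    _ ≤ _ := h3
    _ ≤ _ := num_exists_le _ r (r + n)
    _ ≤ ∑ i ∈ Finset.range r, 2 * ((allW M i).card * (allW M (r - i)).card) * Dn a p n :=
      Finset.sum_le_sum h5
    _ = _ := by rw [Finset.sum_mul]

lemma good_pure (hND : ∀ k, sh k a ≠ rv a) (h : InV a a) (hT : Tr a) {p : ℕ × ℕ} {r : ℕ}
    (hp : Reach a (0, 0) p) (hst : ∀ p', Reach a p p' → MinInd a p' r) :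
    Good a (r, 0) := by
  rcases Nat.eq_zero_or_pos r with rfl | hr1
  · exact ⟨1, fun n => by simp⟩
  have hr := hst p (Reach.rfl' p)
  obtain ⟨κ, hκ1, hκ⟩ := doubling hND h (hp.cs Cs_zero) hst
  set f : ℕ → ℕ := fun n => cnt a (r, 0) n with hf
  have hfm : ∀ {m n}, m ≤ n → f m ≤ f n := fun hmn => cnt_mono h (Cs_pure r) hmn
  have hf1 : ∀ n, 1 ≤ f n := fun n => cnt_pos h (Cs_pure r) n
  have hstep : ∀ j n, Dn a p (j * r + n) ≤ j * f (j * r + n) + Dn a p n := by
    intro j n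
    induction j with
    | zero => simp
    | succ j ih =>
      have h1 := Dn_step h hr hr1 (j * r + n)
      have e1 : (j + 1) * r + n = r + (j * r + n) := by ring
      rw [e1]
      have h2 : f (j * r + n) ≤ f (r + (j * r + n)) := hfm (by omega)
      calc Dn a p (r + (j * r + n)) ≤ f (j * r + n) + Dn a p (j * r + n) := h1
        _ ≤ f (j * r + n) + (j * f (j * r + n) + Dn a p n) := Nat.add_le_add_left ih _
        _ = (j + 1) * f (j * r + n) + Dn a p n := by ring
        _ ≤ (j + 1) * f (r + (j * r + n)) + Dn a p n :=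
          Nat.add_le_add_right (Nat.mul_le_mul_left _ h2) _
  have hf2 : ∀ n, 2 * f n ≤ f (κ * r + n) := by
    intro n
    refine (hκ n).trans (hfm ?_)
    have : κ * 1 ≤ κ * r := Nat.mul_le_mul_left _ hr1
    omega
  set B := ∑ m ∈ Finset.range (κ * r), Dn a p m with hB
  have hκr : 0 < κ * r := Nat.mul_pos hκ1 hr1
  have hD : ∀ n, Dn a p n ≤ (2 * κ + B) * f n := by
    intro n
    induction n using Nat.strong_induction_on with
    | _ n ih =>
      rcases Nat.lt_or_ge n (κ * r) with hn | hn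
      · have h1 : Dn a p n ≤ B :=
          Finset.single_le_sum (f := fun m => Dn a p m) (fun _ _ => Nat.zero_le _)
            (Finset.mem_range.mpr hn)
        have h2 := hf1 n
        nlinarith
      · obtain ⟨n', rfl⟩ := Nat.exists_eq_add_of_le hn
        have h1 := hstep κ n'
        have h2 := ih n' (by omega)
        have h3 := hf2 n'
        have h4 : (2 * κ + B) * (2 * f n') ≤ (2 * κ + B) * f (κ * r + n') :=
          Nat.mul_le_mul_left _ h3
        nlinarith
  obtain ⟨C, hC⟩ := N_le_Dn h hT hp hr hr1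
  refine ⟨C * (2 * κ + B), fun n => ?_⟩
  calc cnt a (0, 0) n ≤ C * Dn a p n := hC n
    _ ≤ C * ((2 * κ + B) * f n) := Nat.mul_le_mul_left _ (hD n)
    _ = _ := by ring

/-- every reachable state is good -/
theorem good_all (hND : ∀ k, sh k a ≠ rv a) (h : InV a a) (hT : Tr a) {q : ℕ × ℕ}
    (hq : Reach a (0, 0) q) : Good a q := by
  obtain ⟨p, r, hqp, hst⟩ := exists_stable hND h hT hq
  have h1 := good_pure hND h hT (hq.trans hqp) hst
  have h2 : ∃ s, Reach a q s ∧ Good a s := by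
    rcases (hst p (Reach.rfl' p)).1 with h3 | h3
    · exact ⟨_, hqp.trans h3, h1⟩
    · exact ⟨_, hqp.trans h3, Good_swap h1⟩
  obtain ⟨s, ⟨v, hv, rfl⟩, hs⟩ := h2
  exact Good_of_path h hv hs

/-- exponential growth -/
theorem exists_double (hND : ∀ k, sh k a ≠ rv a) (h : InV a a) (hT : Tr a) :
    ∃ κ, 1 ≤ κ ∧ ∀ k, 2 ^ k ≤ cnt a (0, 0) (κ * k) := by
  obtain ⟨p, r, hqp, hst⟩ := exists_stable hND h hT (Reach.rfl' (a := a) (0, 0))
  obtain ⟨κ, hκ1, hκ⟩ := doubling hND h (hqp.cs Cs_zero) hst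
  refine ⟨κ, hκ1, fun k => ?_⟩
  refine le_trans ?_ (cnt_le_N h (r, 0) _)
  induction k with
  | zero => exact cnt_pos h (Cs_pure r) _
  | succ k ih =>
    have h1 := hκ (κ * k)
    rw [show κ + κ * k = κ * (k + 1) by ring] at h1
    rw [pow_succ]
    omega

end Pool.Agent.L5helper76.EM
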