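import Pool.Agent.L5helper76.EM.Good

/-! # A proper subshift of full growth rate forces a larger growth rate -/

namespace Pool.Agent.L5helper76.EM

open scoped Classical
open Filter Topology

variable {M : ℕ} {a : ℕ → Fin (M+1)}

section BXlemmas

variable {X : Set (ℕ → Fin (M+1))}

lemma BX_prefix {u v : List (Fin (M+1))} (h : BX X (u ++ v)) : BX X u := by
  obtain ⟨x, hx, hp⟩ := h
  rw [List.length_append, pre_add] at hp
  exact ⟨x, hx, (List.append_inj hp (by simp)).1⟩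

lemma BX_suffix (hXs : ∀ x ∈ X, sh 1 x ∈ X) {u v : List (Fin (M+1))} (h : BX X (u ++ v)) :
    BX X v := by
  obtain ⟨x, hx, hp⟩ := h
  rw [List.length_append, pre_add] at hp
  exact ⟨_, sh_mem hXs _ x hx, (List.append_inj hp (by simp)).2⟩

lemma BX_Rd (hXV : ∀ x ∈ X, InV a x) {u : List (Fin (M+1))} (h : BX X u) : Rd a (0, 0) u := by
  obtain ⟨x, hx, hp⟩ := h
  rw [← hp]
  exact Rd_of_InV (hXV x hx) _

end BXlemmas

/-- the potential of a state -/
noncomputable def pot (ρ : ℝ) (T : ℕ) (p : ℕ × ℕ) : ℝ := ρ ^ (min (min p.1 p.2) T)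

/-- the finite set of inner states -/
def Fin' (T : ℕ) (p : ℕ × ℕ) : Prop := p.1 ≤ T ∧ p.2 ≤ T

lemma pot_local {ρ : ℝ} (hρ : 1 < ρ) {T : ℕ} (hT : 2 ≤ ρ ^ (T + 1)) (p : ℕ × ℕ) :
    ∑ c : Fin (M+1), (if ok a p c ∧ ¬ Fin' T (nx a p c) then pot ρ T (nx a p c) else 0) ≤
      ρ * pot ρ T p := by
  obtain ⟨t, s⟩ := p
  have hρ0 : (0 : ℝ) < ρ := by linarith
  have hpot1 : 1 ≤ pot ρ T (t, s) := one_le_pow₀ (le_of_lt hρ)
  by_cases heq : a t = (a s).rev
  · rw [Finset.sum_eq_single (a t)]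
    · have h1 : nx a (t, s) (a t) = (t + 1, s + 1) := by
        simp only [nx]; rw [if_pos trivial, if_pos heq]
      rw [h1]
      have h2 : pot ρ T (t + 1, s + 1) ≤ ρ * pot ρ T (t, s) := by
        unfold pot
        rw [← pow_succ']
        exact pow_le_pow_right₀ (le_of_lt hρ) (by simp only; omega)
      split_ifs
      · exact h2
      · positivity
    · intro c _ hc
      rw [if_neg]
      rintro ⟨⟨h1, h2⟩, _⟩
      simp only at h1 h2
      rw [← heq] at h1
      exact hc (le_antisymm h2 h1)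
    · intro h; exact absurd (Finset.mem_univ _) h
  · have hbound : ∀ c : Fin (M+1),
        (if ok a (t, s) c ∧ ¬ Fin' T (nx a (t, s) c) then pot ρ T (nx a (t, s) c) else 0) ≤
        (if c = a t then (if T ≤ t then (1:ℝ) else 0) else 0) +
        (if c = (a s).rev then (if T ≤ s then (1:ℝ) else 0) else 0) := by
      intro c
      by_cases h1 : c = a t
      · have h2 : c ≠ (a s).rev := by rw [h1]; exact heq
        have h3 : nx a (t, s) c = (t + 1, 0) := by
          simp only [nx]; rw [if_pos h1, if_neg h2]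
        rw [h3, if_pos h1, if_neg h2, add_zero]
        by_cases hF : T ≤ t
        · rw [if_pos hF]
          split_ifs
          · simp [pot]
          · norm_num
        · rw [if_neg hF, if_neg]
          rintro ⟨_, h4⟩
          exact h4 ⟨by simp only; omega, by simp⟩
      · rw [if_neg h1, zero_add]
        by_cases h2 : c = (a s).rev
        · have h3 : nx a (t, s) c = (0, s + 1) := by
            simp only [nx]; rw [if_neg h1, if_pos h2]
          rw [h3, if_pos h2]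
          by_cases hF : T ≤ s
          · rw [if_pos hF]
            split_ifs
            · simp [pot]
            · norm_num
          · rw [if_neg hF, if_neg]
            rintro ⟨_, h4⟩
            exact h4 ⟨by simp, by simp only; omega⟩
        · have h3 : nx a (t, s) c = (0, 0) := by
            simp only [nx]; rw [if_neg h1, if_neg h2]
          rw [h3, if_neg h2, if_neg]
          rintro ⟨_, h4⟩
          exact h4 ⟨by simp, by simp⟩
    refine (Finset.sum_le_sum fun c _ => hbound c).trans ?_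
    rw [Finset.sum_add_distrib, Finset.sum_ite_eq' , Finset.sum_ite_eq']
    simp only [Finset.mem_univ, if_true]
    by_cases h1 : T ≤ t
    · by_cases h2 : T ≤ s
      · rw [if_pos h1, if_pos h2]
        have h3 : pot ρ T (t, s) = ρ ^ T := by
          unfold pot; congr 1; simp only; omega
        rw [h3, ← pow_succ']
        linarith
      · rw [if_pos h1, if_neg h2]
        nlinarith
    · rw [if_neg h1]
      split_ifs
      · nlinarith
      · nlinarith

section growth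

variable {X : Set (ℕ → Fin (M+1))}

/-- total potential of the words of `X` -/
noncomputable def Pot (a : ℕ → Fin (M+1)) (X : Set (ℕ → Fin (M+1))) (ρ : ℝ) (T m : ℕ) : ℝ :=
  ∑ u ∈ allW M m, if BX X u then pot ρ T (st a (0, 0) u) else 0

/-- number of words of `X` ending in an inner state -/
noncomputable def Qn (a : ℕ → Fin (M+1)) (X : Set (ℕ → Fin (M+1))) (T m : ℕ) : ℕ :=
  num (fun u => BX X u ∧ Fin' T (st a (0, 0) u)) m

lemma Pot_succ (hXV : ∀ x ∈ X, InV a x) {ρ : ℝ} (hρ : 1 < ρ) {T : ℕ}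
    (hT : 2 ≤ ρ ^ (T + 1)) (m : ℕ) :
    Pot a X ρ T (m + 1) ≤ ρ * Pot a X ρ T m + ρ ^ T * Qn a X T (m + 1) := by
  have hρ0 : (0 : ℝ) < ρ := by linarith
  have hQ : (Qn a X T (m + 1) : ℝ) = ∑ u ∈ allW M m, ∑ c : Fin (M+1),
      (if BX X (u ++ [c]) ∧ Fin' T (st a (0, 0) (u ++ [c])) then (1:ℝ) else 0) := by
    unfold Qn
    rw [num_eq_sum, sum_allW_add, Nat.cast_sum]
    apply Finset.sum_congr rfl
    intro u _
    rw [sum_allW_one, Nat.cast_sum]
    apply Finset.sum_congr rfl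
    intro c _
    split_ifs <;> simp
  rw [hQ]
  unfold Pot
  rw [sum_allW_add, Finset.mul_sum, Finset.mul_sum, ← Finset.sum_add_distrib]
  apply Finset.sum_le_sum
  intro u _
  rw [sum_allW_one]
  by_cases hu : BX X u
  · rw [if_pos hu]
    have h1 := pot_local (a := a) hρ hT (st a (0, 0) u)
    refine le_trans ?_ (add_le_add_left h1 _)
    rw [Finset.mul_sum, ← Finset.sum_add_distrib]
    apply Finset.sum_le_sum
    intro c _
    have hst : st a (0, 0) (u ++ [c]) = nx a (st a (0, 0) u) c := by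
      rw [st_append]; rfl
    rw [hst]
    have hp0 : 0 ≤ pot ρ T (nx a (st a (0, 0) u) c) := by unfold pot; positivity
    by_cases hc : BX X (u ++ [c])
    · rw [if_pos hc]
      have hok : ok a (st a (0, 0) u) c := by
        have := BX_Rd hXV hc
        rw [Rd_append] at this
        exact this.2.1
      by_cases hF : Fin' T (nx a (st a (0, 0) u) c)
      · rw [if_neg (fun h => h.2 hF), if_pos ⟨hc, hF⟩]
        have : pot ρ T (nx a (st a (0, 0) u) c) ≤ ρ ^ T := by
          unfold pot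
          exact pow_le_pow_right₀ (le_of_lt hρ) (min_le_right _ _)
        linarith
      · rw [if_pos ⟨hok, hF⟩, if_neg (fun h => hF h.2)]
        linarith
    · have h2 : ¬ (BX X (u ++ [c]) ∧ Fin' T (nx a (st a (0, 0) u) c)) := fun h => hc h.1
      rw [if_neg hc, if_neg h2]
      split_ifs
      · linarith
      · linarith
  · rw [if_neg hu]
    have h1 : ∀ c, ¬ BX X (u ++ [c]) := fun c hc => hu (BX_prefix hc)
    simp [h1]

/-- the number of inner words is large on average -/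
lemma sum_Qn_large (hXV : ∀ x ∈ X, InV a x) {lam : ℝ} (hlam : 1 < lam)
    (hX : ∀ m, lam ^ m ≤ (num (BX X) m : ℝ)) :
    ∃ T, ∀ K : ℝ, ∃ n, K ≤ ∑ m ∈ Finset.range n, (Qn a X T m : ℝ) / lam ^ m := by
  set ρ := (1 + lam) / 2 with hρdef
  have hρ1 : 1 < ρ := by rw [hρdef]; linarith
  have hρl : ρ < lam := by rw [hρdef]; linarith
  have hlam0 : 0 < lam := by linarith
  have hρ0 : 0 < ρ := by linarith
  obtain ⟨T, hT⟩ : ∃ T : ℕ, 2 ≤ ρ ^ (T + 1) := by
    obtain ⟨n, hn⟩ := pow_unbounded_of_one_lt 2 hρ1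
    exact ⟨n, (le_of_lt hn).trans (pow_le_pow_right₀ (le_of_lt hρ1) (Nat.le_succ n))⟩
  refine ⟨T, fun K => ?_⟩
  set x : ℕ → ℝ := fun m => Pot a X ρ T m / lam ^ m with hx
  set q : ℕ → ℝ := fun m => (Qn a X T m : ℝ) / lam ^ m with hq
  have hq0 : ∀ m, 0 ≤ q m := fun m => by simp only [hq]; positivity
  have hx1 : ∀ m, 1 ≤ x m := by
    intro m
    simp only [hx]
    rw [le_div_iff₀ (pow_pos hlam0 m), one_mul]
    refine (hX m).trans ?_
    rw [num_eq_sum]
    push_cast
    apply Finset.sum_le_sum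
    intro u _
    split_ifs
    · exact one_le_pow₀ (le_of_lt hρ1)
    · exact le_rfl
  have hstep : ∀ m, x (m + 1) ≤ (ρ / lam) * x m + ρ ^ T * q (m + 1) := by
    intro m
    simp only [hx, hq]
    have h1 := Pot_succ hXV hρ1 hT m (a := a)
    have hl := pow_pos hlam0 (m + 1)
    rw [div_le_iff₀ hl]
    have e1 : (ρ / lam * (Pot a X ρ T m / lam ^ m) + ρ ^ T * (↑(Qn a X T (m + 1)) / lam ^ (m + 1)))
        * lam ^ (m + 1) = ρ * Pot a X ρ T m + ρ ^ T * Qn a X T (m + 1) := by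
      have := (pow_pos hlam0 m).ne'
      rw [pow_succ]
      field_simp
    rw [e1]
    exact h1
  set δ := 1 - ρ / lam with hδ
  have hδ0 : 0 < δ := by
    rw [hδ, sub_pos, div_lt_one hlam0]; exact hρl
  have hsum : ∀ n : ℕ, δ * n ≤ x 0 + ρ ^ T * ∑ m ∈ Finset.range n, q (m + 1) := by
    intro n
    have h1 : ∑ m ∈ Finset.range n, x (m + 1) ≤
        (ρ / lam) * ∑ m ∈ Finset.range n, x m + ρ ^ T * ∑ m ∈ Finset.range n, q (m + 1) := by
      rw [Finset.mul_sum, Finset.mul_sum, ← Finset.sum_add_distrib]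
      exact Finset.sum_le_sum fun m _ => hstep m
    have h2 : ∑ m ∈ Finset.range n, x (m + 1) + x 0 = ∑ m ∈ Finset.range n, x m + x n := by
      rw [← Finset.sum_range_succ', ← Finset.sum_range_succ]
    have h3 : (n : ℝ) ≤ ∑ m ∈ Finset.range n, x m := by
      calc (n : ℝ) = ∑ m ∈ Finset.range n, (1 : ℝ) := by simp
        _ ≤ _ := Finset.sum_le_sum fun m _ => hx1 m
    have h4 := hx1 n
    have h5 : δ * n ≤ δ * ∑ m ∈ Finset.range n, x m := mul_le_mul_of_nonneg_left h3 hδ0.le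
    have h6 : δ * ∑ m ∈ Finset.range n, x m =
        ∑ m ∈ Finset.range n, x m - (ρ / lam) * ∑ m ∈ Finset.range n, x m := by
      rw [hδ]; ring
    linarith
  have hρT : 0 < ρ ^ T := pow_pos hρ0 T
  obtain ⟨n, hn⟩ := exists_nat_ge ((x 0 + ρ ^ T * K) / δ)
  refine ⟨n + 1, ?_⟩
  have h1 := hsum n
  rw [div_le_iff₀ hδ0] at hn
  have h2 : ∑ m ∈ Finset.range n, q (m + 1) ≤ ∑ m ∈ Finset.range (n + 1), q m := by
    rw [Finset.sum_range_succ']
    linarith [hq0 0]
  refine le_trans ?_ h2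
  have h3 : ρ ^ T * K ≤ ρ ^ T * ∑ m ∈ Finset.range n, q (m + 1) := by nlinarith
  exact le_of_mul_le_mul_left h3 hρT

lemma num_prefix_le (P : List (Fin (M+1)) → Prop) (v : List (Fin (M+1))) (j : ℕ) :
    num (fun z => P (v ++ z)) j ≤ num P (v.length + j) := by
  rw [num_add]
  exact Finset.single_le_sum (f := fun u => num (fun z => P (u ++ z)) j)
    (fun _ _ => Nat.zero_le _) (by simp)

/-- from every inner state, the forbidden word can be read and a good state reached, uniformly -/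
lemma uniform_escape (hND : ∀ k, sh k a ≠ rv a) (h : InV a a) (hT : Tr a)
    {w0 : List (Fin (M+1))} (hw0 : Rd a (0, 0) w0) (T : ℕ) :
    ∃ ℓ C : ℕ, 1 ≤ ℓ ∧ 1 ≤ C ∧ ∀ p, Reach a (0, 0) p → Fin' T p →
      ∃ v : List (Fin (M+1)), Rd a p (v ++ w0) ∧ (v ++ w0).length ≤ ℓ ∧
        ∀ n, cnt a (0, 0) n ≤ C * cnt a (st a p (v ++ w0)) n := by
  have h1 : ∀ p, ∃ ℓ C : ℕ, Reach a (0, 0) p →
      ∃ v : List (Fin (M+1)), Rd a p (v ++ w0) ∧ (v ++ w0).length ≤ ℓ ∧
        ∀ n, cnt a (0, 0) n ≤ C * cnt a (st a p (v ++ w0)) n := by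
    intro p
    by_cases hp : Reach a (0, 0) p
    · have hp' := hp
      obtain ⟨u, hu, rfl⟩ := hp
      obtain ⟨v, hv⟩ := hT u w0 hu hw0
      rw [Rd_append] at hv
      obtain ⟨C, hC⟩ := good_all hND h hT (hp'.trans ⟨_, hv.2, rfl⟩)
      exact ⟨(v ++ w0).length, C, fun _ => ⟨v, hv.2, le_rfl, hC⟩⟩
    · exact ⟨0, 0, fun hp' => absurd hp' hp⟩
  choose ℓ C hℓC using h1
  refine ⟨∑ p ∈ Finset.range (T+1) ×ˢ Finset.range (T+1), ℓ p + 1,
    ∑ p ∈ Finset.range (T+1) ×ˢ Finset.range (T+1), C p + 1, by omega, by omega,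
    fun p hp hF => ?_⟩
  obtain ⟨v, hv1, hv2, hv3⟩ := hℓC p hp
  have hmem : p ∈ Finset.range (T+1) ×ˢ Finset.range (T+1) := by
    simp only [Finset.mem_product, Finset.mem_range]
    exact ⟨Nat.lt_succ_of_le hF.1, Nat.lt_succ_of_le hF.2⟩
  have h2 : ℓ p ≤ ∑ p ∈ Finset.range (T+1) ×ˢ Finset.range (T+1), ℓ p :=
    Finset.single_le_sum (fun _ _ => Nat.zero_le _) hmem
  have h3 : C p ≤ ∑ p ∈ Finset.range (T+1) ×ˢ Finset.range (T+1), C p :=
    Finset.single_le_sum (fun _ _ => Nat.zero_le _) hmem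
  refine ⟨v, hv1, by omega, fun n => (hv3 n).trans (Nat.mul_le_mul_right _ (by omega))⟩

lemma escape_count (h : InV a a) (hXs : ∀ x ∈ X, sh 1 x ∈ X)
    (hXV : ∀ x ∈ X, InV a x) {w0 : List (Fin (M+1))} (hw0' : ¬ BX X w0) {T ℓ C : ℕ}
    (hesc : ∀ p, Reach a (0, 0) p → Fin' T p →
      ∃ v : List (Fin (M+1)), Rd a p (v ++ w0) ∧ (v ++ w0).length ≤ ℓ ∧
        ∀ n, cnt a (0, 0) n ≤ C * cnt a (st a p (v ++ w0)) n) (m k : ℕ) :
    Qn a X T m * cnt a (0, 0) k ≤
      C * num (fun y => Rd a (0, 0) y ∧ BX X (y.take m) ∧ ¬ BX X (y.take (m + ℓ)))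
        (m + (ℓ + k)) := by
  rw [num_add, Qn, num_eq_sum, Finset.sum_mul, Finset.mul_sum]
  apply Finset.sum_le_sum
  intro u hu
  rw [mem_allW] at hu
  by_cases hcond : BX X u ∧ Fin' T (st a (0, 0) u)
  · rw [if_pos hcond, one_mul]
    have hRu := BX_Rd hXV hcond.1
    obtain ⟨v, hv1, hv2, hv3⟩ := hesc _ ⟨u, hRu, rfl⟩ hcond.2
    set v' := v ++ w0 with hv'
    refine (hv3 k).trans (Nat.mul_le_mul_left _ ?_)
    have hCs : Cs a (st a (st a (0, 0) u) v') := Cs_st (Cs_st Cs_zero u) v'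
    have e1 : ℓ + k = v'.length + (ℓ - v'.length + k) := by omega
    rw [e1]
    refine le_trans ?_ (num_prefix_le _ v' _)
    refine (cnt_mono h hCs (show k ≤ ℓ - v'.length + k by omega)).trans ?_
    apply num_mono
    intro z _ hz
    refine ⟨?_, ?_, ?_⟩
    · rw [Rd_append, Rd_append]
      exact ⟨hRu, hv1, hz⟩
    · rw [List.take_left' hu]
      exact hcond.1
    · intro hB
      have e2 : (u ++ (v' ++ z)).take (m + ℓ) = (u ++ v') ++ z.take (ℓ - v'.length) := by
        rw [← List.append_assoc, List.take_append, List.take_of_length_le (by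
          simp only [List.length_append]; omega)]
        congr 2
        simp only [List.length_append]
        omega
      rw [e2] at hB
      have hB2 := BX_suffix hXs (BX_prefix hB)
      rw [hv'] at hB2
      exact hw0' (BX_suffix hXs hB2)
  · rw [if_neg hcond, zero_mul]
    exact Nat.zero_le _

lemma telescoping {A E : ℕ → ℕ} {ℓ N : ℕ} (h : ∀ m, E m + A (m + ℓ) ≤ A m) (hA : ∀ m, A m ≤ N)
    (n : ℕ) : ∑ m ∈ Finset.range n, E m ≤ ℓ * N := by
  have h1 : ∑ m ∈ Finset.range n, E m + ∑ m ∈ Finset.range n, A (m + ℓ) ≤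
      ∑ m ∈ Finset.range n, A m := by
    rw [← Finset.sum_add_distrib]
    exact Finset.sum_le_sum fun m _ => h m
  have h2 : ∑ m ∈ Finset.range n, A m ≤ ∑ m ∈ Finset.range (ℓ + n), A m :=
    Finset.sum_le_sum_of_subset (Finset.range_subset_range.mpr (by omega))
  have h3 : ∑ m ∈ Finset.range (ℓ + n), A m =
      ∑ m ∈ Finset.range ℓ, A m + ∑ m ∈ Finset.range n, A (ℓ + m) := by
    rw [Finset.sum_range_add]
  have h4 : ∑ m ∈ Finset.range n, A (ℓ + m) = ∑ m ∈ Finset.range n, A (m + ℓ) :=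
    Finset.sum_congr rfl fun m _ => by rw [add_comm]
  have h5 : ∑ m ∈ Finset.range ℓ, A m ≤ ℓ * N := by
    calc _ ≤ ∑ m ∈ Finset.range ℓ, N := Finset.sum_le_sum fun m _ => hA m
      _ = ℓ * N := by simp
  omega

theorem growth (hND : ∀ k, sh k a ≠ rv a) (h : InV a a) (hT : Tr a)
    (hXs : ∀ x ∈ X, sh 1 x ∈ X) (hXV : ∀ x ∈ X, InV a x)
    {w0 : List (Fin (M+1))} (hw0 : Rd a (0, 0) w0) (hw0' : ¬ BX X w0)
    {lam : ℝ} (hlam : 1 < lam) (hX : ∀ m, lam ^ m ≤ (num (BX X) m : ℝ)) :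
    ∃ D : ℕ, 1 ≤ D ∧ ∀ k, 2 ^ k * lam ^ (D * k) ≤ (cnt a (0, 0) (D * k) : ℝ) := by
  have hlam0 : 0 < lam := by linarith
  obtain ⟨T, hTK⟩ := sum_Qn_large hXV hlam hX (a := a)
  obtain ⟨ℓ, C, hℓ1, hC1, hesc⟩ := uniform_escape hND h hT hw0 T
  obtain ⟨n0, hn0⟩ := hTK (2 * (C * ℓ) * lam ^ ℓ)
  have hN : ∀ n, n0 + ℓ ≤ n →
      ∑ m ∈ Finset.range n0, Qn a X T m * cnt a (0, 0) (n - m - ℓ) ≤ C * (ℓ * cnt a (0, 0) n) := by
    intro n hn
    set A : ℕ → ℕ := fun m => num (fun y => Rd a (0, 0) y ∧ BX X (y.take m)) n with hA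
    set E : ℕ → ℕ := fun m =>
      num (fun y => Rd a (0, 0) y ∧ BX X (y.take m) ∧ ¬ BX X (y.take (m + ℓ))) n with hE
    have h1 : ∀ m, E m + A (m + ℓ) ≤ A m := by
      intro m
      simp only [hE, hA]
      rw [num_eq_sum, num_eq_sum, num_eq_sum, ← Finset.sum_add_distrib]
      apply Finset.sum_le_sum
      intro y _
      have h2 : BX X (y.take (m + ℓ)) → BX X (y.take m) := by
        intro hB
        have : y.take (m + ℓ) = y.take m ++ (y.drop m).take ℓ := by
          rw [List.take_add]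
        rw [this] at hB
        exact BX_prefix hB
      by_cases h3 : Rd a (0, 0) y <;> by_cases h4 : BX X (y.take m) <;>
        by_cases h5 : BX X (y.take (m + ℓ)) <;> simp [h3, h4, h5]
      exact h4 (h2 h5)
    have h2 := telescoping h1 (fun m => num_mono fun y _ hy => hy.1) n0 (N := cnt a (0, 0) n)
    calc ∑ m ∈ Finset.range n0, Qn a X T m * cnt a (0, 0) (n - m - ℓ)
        ≤ ∑ m ∈ Finset.range n0, C * E m := by
          apply Finset.sum_le_sum
          intro m hm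
          rw [Finset.mem_range] at hm
          have h3 := escape_count h hXs hXV hw0' hesc m (n - m - ℓ)
          rw [show m + (ℓ + (n - m - ℓ)) = n by omega] at h3
          exact h3
      _ = C * ∑ m ∈ Finset.range n0, E m := by rw [Finset.mul_sum]
      _ ≤ _ := Nat.mul_le_mul_left _ h2
  have hXN : ∀ m, lam ^ m ≤ (cnt a (0, 0) m : ℝ) := fun m =>
    (hX m).trans (by exact_mod_cast num_mono fun u _ hu => BX_Rd hXV hu)
  refine ⟨n0 + ℓ, by omega, ?_⟩
  have key : ∀ k n, (n0 + ℓ) * k ≤ n → 2 ^ k * lam ^ n ≤ (cnt a (0, 0) n : ℝ) := by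
    intro k
    induction k with
    | zero => intro n _; simpa using hXN n
    | succ k ih =>
      intro n hn
      rw [Nat.mul_succ] at hn
      have h1 := hN n (by omega)
      have h1' : ∑ m ∈ Finset.range n0, (Qn a X T m : ℝ) * cnt a (0, 0) (n - m - ℓ) ≤
          C * (ℓ * cnt a (0, 0) n) := by exact_mod_cast h1
      have h2 : ∑ m ∈ Finset.range n0, (Qn a X T m : ℝ) * (2 ^ k * lam ^ (n - m - ℓ)) ≤
          C * (ℓ * cnt a (0, 0) n) := by
        refine le_trans (Finset.sum_le_sum fun m hm => ?_) h1'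
        rw [Finset.mem_range] at hm
        exact mul_le_mul_of_nonneg_left (ih _ (by omega)) (Nat.cast_nonneg _)
      have h3 : ∑ m ∈ Finset.range n0, (Qn a X T m : ℝ) * (2 ^ k * lam ^ (n - m - ℓ)) =
          (2 ^ k * (lam ^ n / lam ^ ℓ)) *
            ∑ m ∈ Finset.range n0, (Qn a X T m : ℝ) / lam ^ m := by
        rw [Finset.mul_sum]
        apply Finset.sum_congr rfl
        intro m hm
        rw [Finset.mem_range] at hm
        have e1 : lam ^ n = lam ^ (n - m - ℓ) * lam ^ m * lam ^ ℓ := by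
          rw [← pow_add, ← pow_add]; congr 1; omega
        have p1 := (pow_pos hlam0 m).ne'
        have p2 := (pow_pos hlam0 ℓ).ne'
        rw [e1]
        field_simp
      rw [h3] at h2
      have hpos : 0 < 2 ^ k * (lam ^ n / lam ^ ℓ) := by positivity
      have h4 : (2 ^ k * (lam ^ n / lam ^ ℓ)) * (2 * (C * ℓ) * lam ^ ℓ) ≤
          C * (ℓ * cnt a (0, 0) n) := (mul_le_mul_of_nonneg_left hn0 hpos.le).trans h2
      have e2 : (2 ^ k * (lam ^ n / lam ^ ℓ)) * (2 * ((C : ℝ) * ℓ) * lam ^ ℓ) =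
          (C * ℓ) * (2 ^ (k + 1) * lam ^ n) := by
        have p2 := (pow_pos hlam0 ℓ).ne'
        rw [pow_succ]
        field_simp
      rw [e2] at h4
      have hCℓ : (0 : ℝ) < C * ℓ := by
        have h5 : (1 : ℝ) ≤ C := by exact_mod_cast hC1
        have h6 : (1 : ℝ) ≤ ℓ := by exact_mod_cast hℓ1
        nlinarith
      have h7 : (C : ℝ) * (ℓ * cnt a (0, 0) n) = (C * ℓ) * cnt a (0, 0) n := by ring
      rw [h7] at h4
      exact le_of_mul_le_mul_left h4 hCℓ
  intro k
  exact key k _ le_rfl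

end growth

/-- Fekete -/
lemma fekete {c : ℕ → ℕ} (h1 : ∀ n, 1 ≤ c n) (h2 : ∀ m n, c (m + n) ≤ c m * c n) :
    ∃ h : ℝ, Tendsto (fun n : ℕ => Real.log (c n) / n) atTop (𝓝 h) ∧
      ∀ n : ℕ, Real.exp (n * h) ≤ c n := by
  have hpos : ∀ n, (0 : ℝ) < c n := fun n => by exact_mod_cast h1 n
  have hsub : Subadditive (fun n => Real.log (c n)) := by
    intro m n
    rw [← Real.log_mul (hpos m).ne' (hpos n).ne']
    apply Real.log_le_log (hpos _)
    exact_mod_cast h2 m n
  have hnn : ∀ n, 0 ≤ Real.log (c n) := fun n => Real.log_nonneg (by exact_mod_cast h1 n)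
  have hbdd : BddBelow (Set.range fun n : ℕ => Real.log (c n) / n) := by
    refine ⟨0, ?_⟩
    rintro _ ⟨n, rfl⟩
    exact div_nonneg (hnn n) (Nat.cast_nonneg n)
  refine ⟨hsub.lim, hsub.tendsto_lim hbdd, fun n => ?_⟩
  rcases Nat.eq_zero_or_pos n with rfl | hn
  · simp only [Nat.cast_zero, zero_mul, Real.exp_zero]
    exact_mod_cast h1 0
  · have h3 := hsub.lim_le_div hbdd (n := n) (by omega)
    have hn' : (0 : ℝ) < n := by exact_mod_cast hn
    rw [le_div_iff₀ hn'] at h3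
    rw [← Real.le_log_iff_exp_le (hpos n)]
    linarith

lemma le_lim {c : ℕ → ℕ} (h1 : ∀ n, 1 ≤ c n) {h : ℝ}
    (hc : Tendsto (fun n : ℕ => Real.log (c n) / n) atTop (𝓝 h)) {D : ℕ} (hD : 1 ≤ D) {β : ℝ}
    (hβ : ∀ k : ℕ, Real.exp (k * β) ≤ c (D * k)) : β / D ≤ h := by
  have hD' : (0 : ℝ) < D := by exact_mod_cast hD
  have h2 : Tendsto (fun k : ℕ => D * k) atTop atTop :=
    tendsto_id.const_mul_atTop' hD
  have h3 := hc.comp h2
  apply ge_of_tendsto h3
  filter_upwards [eventually_ge_atTop 1] with k hk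
  have hk' : (0 : ℝ) < k := by exact_mod_cast hk
  simp only [Function.comp_apply]
  push_cast
  rw [div_le_div_iff₀ hD' (by positivity)]
  have h4 : k * β ≤ Real.log (c (D * k)) := by
    rw [Real.le_log_iff_exp_le (by exact_mod_cast h1 _)]
    exact hβ k
  nlinarith

/-- the main comparison, in terms of words -/
theorem main_words (h : InV a a) (hT : Tr a) {X : Set (ℕ → Fin (M+1))}
    (hXs : ∀ x ∈ X, sh 1 x ∈ X) (hXV : ∀ x ∈ X, InV a x) (hXn : X.Nonempty)
    {w0 : List (Fin (M+1))} (hw0 : Rd a (0, 0) w0) (hw0' : ¬ BX X w0) :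
    ∃ h1 h2 : ℝ, Tendsto (fun n : ℕ => Real.log (num (BX X) n) / n) atTop (𝓝 h1) ∧
      Tendsto (fun n : ℕ => Real.log (num (Rd a (0, 0)) n) / n) atTop (𝓝 h2) ∧ h1 < h2 := by
  have hND := nondeg h hT hXs hXV hXn hw0 hw0'
  have hb1 : ∀ n, 1 ≤ num (BX X) n := by
    intro n
    obtain ⟨x, hx⟩ := hXn
    apply Finset.card_pos.mpr
    refine ⟨pre x n, ?_⟩
    simp only [Finset.mem_filter, mem_allW, pre_length, true_and]
    exact ⟨x, hx, by simp⟩
  have hN1 : ∀ n, 1 ≤ num (Rd a (0, 0)) n := fun n => cnt_pos h Cs_zero n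
  obtain ⟨h1, hh1, hh1'⟩ := fekete hb1 (fun m n => num_add_le m n (fun u z hz => BX_prefix hz)
    (fun u z hz => BX_suffix hXs hz))
  obtain ⟨h2, hh2, hh2'⟩ := fekete hN1 (fun m n => cnt_add_le h (0, 0) m n)
  refine ⟨h1, h2, hh1, hh2, ?_⟩
  by_contra hcon
  push Not at hcon
  obtain ⟨κ, hκ1, hκ⟩ := exists_double hND h hT
  have hlog2 : 0 < Real.log 2 := Real.log_pos (by norm_num)
  have hh2pos : 0 < h2 := by
    have h3 := le_lim hN1 hh2 hκ1 (β := Real.log 2) (fun k => by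
      rw [Real.exp_nat_mul, Real.exp_log (by norm_num)]
      exact_mod_cast hκ k)
    have : (0 : ℝ) < κ := by exact_mod_cast hκ1
    exact lt_of_lt_of_le (by positivity) h3
  have hlam : 1 < Real.exp h2 := Real.one_lt_exp_iff.mpr hh2pos
  obtain ⟨D, hD1, hD⟩ := growth hND h hT hXs hXV hw0 hw0' hlam (fun m => by
    rw [← Real.exp_nat_mul]
    refine le_trans ?_ (hh1' m)
    apply Real.exp_le_exp.mpr
    exact mul_le_mul_of_nonneg_left hcon (Nat.cast_nonneg m))
  have h4 := le_lim hN1 hh2 hD1 (β := Real.log 2 + D * h2) (fun k => by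
    rw [mul_add, Real.exp_add, Real.exp_nat_mul, Real.exp_log (by norm_num)]
    refine le_trans (le_of_eq ?_) (hD k)
    congr 1
    rw [← Real.exp_nat_mul]
    congr 1
    push_cast
    ring)
  have hD' : (0 : ℝ) < D := by exact_mod_cast hD1
  rw [div_le_iff₀ hD'] at h4
  linarith

end Pool.Agent.L5helper76.EM
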