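import Pool.Agent.L5helper76.EM.Deg
import Pool.Agent.L5helper76.EM.Count

/-! # Pure states, their indices and the block structure -/

namespace Pool.Agent.L5helper76.EM

open scoped Classical

variable {M : ℕ} {a : ℕ → Fin (M+1)}

def Reach (a : ℕ → Fin (M+1)) (p q : ℕ × ℕ) : Prop := ∃ u, Rd a p u ∧ st a p u = q

lemma Reach.rfl' (p : ℕ × ℕ) : Reach a p p := ⟨[], trivial, rfl⟩

lemma Reach.trans {p q r : ℕ × ℕ} (h1 : Reach a p q) (h2 : Reach a q r) : Reach a p r := by
  obtain ⟨u, hu, rfl⟩ := h1
  obtain ⟨v, hv, rfl⟩ := h2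
  exact ⟨u ++ v, (Rd_append a p u v).mpr ⟨hu, hv⟩, st_append a p u v⟩

lemma Reach.step {p : ℕ × ℕ} {c : Fin (M+1)} (h : ok a p c) : Reach a p (nx a p c) :=
  ⟨[c], ⟨h, trivial⟩, rfl⟩

lemma Reach.swap {p q : ℕ × ℕ} (h : Reach a p q) : Reach a p.swap q.swap := by
  obtain ⟨u, hu, rfl⟩ := h
  exact ⟨u.map Fin.rev, (Rd_swap a p u).mpr hu, st_swap a p u⟩

lemma Reach.cs {p q : ℕ × ℕ} (h : Reach a p q) (hp : Cs a p) : Cs a q := by
  obtain ⟨u, _, rfl⟩ := h
  exact Cs_st hp u

/-- `t` is the index of a pure state reachable from `p` -/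
def Ind (a : ℕ → Fin (M+1)) (p : ℕ × ℕ) (t : ℕ) : Prop := Reach a p (t, 0) ∨ Reach a p (0, t)

lemma Ind.of_reach {p q : ℕ × ℕ} (h : Reach a p q) {t : ℕ} (ht : Ind a q t) : Ind a p t := by
  rcases ht with ht | ht
  · exact Or.inl (h.trans ht)
  · exact Or.inr (h.trans ht)

lemma Ind.next {p : ℕ × ℕ} {t t' : ℕ} (ht : Ind a p t) (h : Ind a (t, 0) t') : Ind a p t' := by
  rcases ht with ht | ht
  · exact h.of_reach ht
  · rcases h with h | h
    · exact Or.inr (ht.trans h.swap)
    · exact Or.inl (ht.trans h.swap)

lemma Cs_pure (t : ℕ) : Cs a (t, 0) := ⟨fun i hi => by simp at hi, fun i hi hle => by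
  simp only at hi hle; omega⟩

lemma Cs_pure' (t : ℕ) : Cs a (0, t) := Cs_swap (Cs_pure (a := a) t)

/-- forced steps and a branching -/
lemma branch (hND : ∀ k, sh k a ≠ rv a) (h : InV a a) {p : ℕ × ℕ} (hp : Cs a p) :
    ∃ w : List (Fin (M+1)), ∃ c c' : Fin (M+1), c ≠ c' ∧ Rd a p (w ++ [c]) ∧ Rd a p (w ++ [c']) ∧
      st a p (w ++ [c]) = (p.1 + w.length + 1, 0) ∧
      st a p (w ++ [c']) = (0, p.2 + w.length + 1) := by
  have h1 : ∃ d, a (p.1 + d) ≠ (a (p.2 + d)).rev := by
    by_contra hcon
    push Not at hcon
    rcases le_total p.2 p.1 with hle | hle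
    · apply hND (p.1 - p.2)
      funext i
      simp only [sh, rv]
      rcases lt_or_ge i p.2 with hi | hi
      · exact hp.1 i hi hle
      · have := hcon (i - p.2)
        rwa [show p.1 + (i - p.2) = p.1 - p.2 + i by omega,
          show p.2 + (i - p.2) = i by omega] at this
    · apply hND (p.2 - p.1)
      funext i
      simp only [sh, rv]
      rcases lt_or_ge i p.1 with hi | hi
      · exact hp.2 i hi hle
      · have := hcon (i - p.1)
        rw [show p.2 + (i - p.1) = p.2 - p.1 + i by omega,
          show p.1 + (i - p.1) = i by omega] at this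
        rw [this, Fin.rev_rev]
  have h2 : ∀ d, (∀ j < d, a (p.1 + j) = (a (p.2 + j)).rev) →
      ∃ w : List (Fin (M+1)), w.length = d ∧ Rd a p w ∧ st a p w = (p.1 + d, p.2 + d) := by
    intro d
    induction d with
    | zero => intro _; exact ⟨[], rfl, trivial, rfl⟩
    | succ d ih =>
      intro hd
      obtain ⟨w, hw1, hw2, hw3⟩ := ih (fun j hj => hd j (by omega))
      have h3 := hd d (by omega)
      refine ⟨w ++ [a (p.1 + d)], by simp [hw1], ?_, ?_⟩
      · rw [Rd_append, hw3]
        refine ⟨hw2, ?_, trivial⟩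
        have := ok_left h (Cs_st hp w)
        rwa [hw3] at this
      · rw [st_append, hw3]
        simp only [st_cons, st_nil, nx]
        rw [if_pos trivial, if_pos h3]
        rfl
  obtain ⟨w, hw1, hw2, hw3⟩ := h2 (Nat.find h1) (fun j hj => by
    have := Nat.find_min h1 hj
    push Not at this
    exact this)
  have h4 := Nat.find_spec h1
  set d := Nat.find h1 with hd
  have hC := Cs_st hp w
  rw [hw3] at hC
  have ho1 := ok_left h hC
  have ho2 := ok_right h hC
  refine ⟨w, a (p.1 + d), (a (p.2 + d)).rev, h4, ?_, ?_, ?_, ?_⟩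
  · rw [Rd_append, hw3]; exact ⟨hw2, ho1, trivial⟩
  · rw [Rd_append, hw3]; exact ⟨hw2, ho2, trivial⟩
  · rw [st_append, hw3, hw1]
    simp only [st_cons, st_nil, nx]
    rw [if_pos trivial, if_neg h4]
  · rw [st_append, hw3, hw1]
    simp only [st_cons, st_nil, nx]
    rw [if_neg h4.symm, if_pos trivial]

/-- `r` is the least index of a pure state reachable from `p` -/
def MinInd (a : ℕ → Fin (M+1)) (p : ℕ × ℕ) (r : ℕ) : Prop :=
  Ind a p r ∧ ∀ t, Ind a p t → r ≤ t

lemma exists_minInd (hND : ∀ k, sh k a ≠ rv a) (h : InV a a) {p : ℕ × ℕ} (hp : Cs a p) :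
    ∃ r, MinInd a p r := by
  obtain ⟨w, c, c', _, h1, _, h3, _⟩ := branch hND h hp
  have h5 : ∃ r, Ind a p r := ⟨_, Or.inl ⟨_, h1, h3⟩⟩
  exact ⟨Nat.find h5, Nat.find_spec h5, fun t ht => Nat.find_min' h5 ht⟩

/-- the block structure after a pure state -/
lemma block (h : InV a a) {p : ℕ × ℕ} {r : ℕ} (hr : ∀ t, Ind a p t → r ≤ t) (hr1 : 1 ≤ r)
    {t : ℕ} (ht : Ind a p t) {y : List (Fin (M+1))} (hyl : r ≤ y.length)
    (hy : Rd a (t, 0) y) :
    ∃ c z, y = pre (rv a) (r - 1) ++ c :: z ∧
      ((c = (a (r - 1)).rev ∧ Rd a (0, r) z) ∨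
        ((c : ℕ) = ((a (r - 1)).rev : ℕ) + 1 ∧ Rd a (t + r, 0) z ∧ Ind a p (t + r))) := by
  have key : ∀ k j, j + k + 1 = r → Reach a (t, 0) (t + j, j) → ∀ y : List (Fin (M+1)),
      r ≤ j + y.length → Rd a (t + j, j) y →
      ∃ c z, y = pre (sh j (rv a)) k ++ c :: z ∧
      ((c = (a (r - 1)).rev ∧ Rd a (0, r) z) ∨
        ((c : ℕ) = ((a (r - 1)).rev : ℕ) + 1 ∧ Rd a (t + r, 0) z ∧ Ind a p (t + r))) := by
    intro k
    induction k with
    | zero =>
      intro j hj hR y hyl hy
      rcases y with _ | ⟨c, z⟩
      · simp only [List.length_nil] at hyl; omega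
      obtain ⟨hok, hz⟩ := hy
      have hj' : j = r - 1 := by omega
      have hCs := hR.cs (Cs_pure t)
      refine ⟨c, z, by simp, ?_⟩
      by_cases hc : c = (a j).rev
      · left
        refine ⟨by rw [hc, hj'], ?_⟩
        have hz' : Rd a ((nx a (t + j, j) c).1, r) z := by
          have : nx a (t + j, j) c = ((nx a (t + j, j) c).1, r) := by
            apply Prod.ext
            · rfl
            · simp only [nx]; rw [if_pos hc]; omega
          rw [this] at hz
          exact hz
        exact Rd_zero_left h hz'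
      · right
        have hno : ∀ c', ok a (t + j, j) c' → c' ≠ (a j).rev → c' = a (t + j) := by
          intro c' hok' hc'
          by_contra hc2
          have h5 : nx a (t + j, j) c' = (0, 0) := by
            simp only [nx]; rw [if_neg hc2, if_neg hc']
          have h6 : Ind a (t, 0) 0 := by
            left
            have := hR.trans (Reach.step hok')
            rwa [h5] at this
          have := hr 0 (ht.next h6)
          omega
        have hca := hno c hok hc
        have hnx : nx a (t + j, j) c = (t + r, 0) := by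
          simp only [nx]
          rw [if_pos hca, if_neg hc]
          exact Prod.ext (by simp only; omega) rfl
        refine ⟨?_, ?_, ?_⟩
        · rw [← hj']
          have h7 : (a j).rev < c := lt_of_le_of_ne hok.1 (Ne.symm hc)
          by_contra hcon
          have h8 : ((a j).rev : ℕ) + 1 < (c : ℕ) := by
            have : ((a j).rev : ℕ) < (c : ℕ) := h7
            omega
          have h9 : ((a j).rev : ℕ) + 1 < M + 1 := lt_of_lt_of_le h8 (le_of_lt c.isLt)
          have h10 := hno ⟨((a j).rev : ℕ) + 1, h9⟩
            ⟨by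
              rw [Fin.le_def]; simp,
             by
              have : c ≤ a (t + j) := hok.2
              rw [Fin.le_def] at this ⊢
              simp only
              omega⟩
            (by
              intro hcc
              have := congrArg Fin.val hcc
              simp only at this
              omega)
          rw [← hca] at h10
          have := congrArg Fin.val h10
          simp only at this
          omega
        · rw [hnx] at hz; exact hz
        · apply ht.next
          left
          have := hR.trans (Reach.step hok)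
          rwa [hnx] at this
    | succ k ih =>
      intro j hj hR y hyl hy
      rcases y with _ | ⟨c, y⟩
      · simp only [List.length_nil] at hyl; omega
      obtain ⟨hok, hz⟩ := hy
      have hCs := hR.cs (Cs_pure t)
      have heq : a (t + j) = (a j).rev := by
        by_contra hne
        have h5 : nx a (t + j, j) (a j).rev = (0, j + 1) := by
          simp only [nx]; rw [if_neg (Ne.symm hne), if_pos trivial]
        have h6 : Ind a (t, 0) (j + 1) := by
          right
          have := hR.trans (Reach.step (ok_right h hCs))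
          rwa [h5] at this
        have := hr _ (ht.next h6)
        omega
      have hc : c = (a j).rev := le_antisymm (by rw [← heq]; exact hok.2) hok.1
      have hnx : nx a (t + j, j) c = (t + (j + 1), j + 1) := by
        simp only [nx]
        rw [if_pos (by rw [heq]; exact hc), if_pos hc]
        exact Prod.ext (by simp only; omega) rfl
      have hR' : Reach a (t, 0) (t + (j + 1), j + 1) := by
        have := hR.trans (Reach.step hok)
        rwa [hnx] at this
      obtain ⟨c', z, hyz, hor⟩ := ih (j + 1) (by omega) hR' y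
        (by simp only [List.length_cons] at hyl; omega) (by rw [hnx] at hz; exact hz)
      refine ⟨c', z, ?_, hor⟩
      rw [pre_succ, sh_sh, hyz, List.cons_append, hc]
      congr 1
  have := key (r - 1) 0 (by omega) (by simpa using Reach.rfl' (a := a) (t, 0)) y (by omega)
    (by simpa using hy)
  simpa using this

/-- readable from a pure state of index `t` -/
def RdP (a : ℕ → Fin (M+1)) (t : ℕ) (y : List (Fin (M+1))) : Prop :=
  Rd a (t, 0) y ∨ Rd a (0, t) y

lemma RdP_rev {t : ℕ} {y : List (Fin (M+1))} : RdP a t (y.map Fin.rev) ↔ RdP a t y := by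
  unfold RdP
  have h1 := Rd_swap a (t, 0) y
  have h2 := Rd_swap a (0, t) y
  simp only [Prod.swap_prod_mk] at h1 h2
  rw [h1, h2, or_comm]

lemma RdP_append {t : ℕ} {y z : List (Fin (M+1))} (h : RdP a t (y ++ z)) : RdP a t y := by
  rcases h with h | h
  · exact Or.inl ((Rd_append _ _ _ _).mp h).1
  · exact Or.inr ((Rd_append _ _ _ _).mp h).1

lemma block_drop (h : InV a a) {p : ℕ × ℕ} {r : ℕ} (hr : MinInd a p r) (hr1 : 1 ≤ r)
    {t : ℕ} (ht : Ind a p t) {y : List (Fin (M+1))} (hy : RdP a t y) :
    ∃ t', Ind a p t' ∧ RdP a t' (y.drop r) := by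
  have key : ∀ y : List (Fin (M+1)), Rd a (t, 0) y → ∃ t', Ind a p t' ∧ RdP a t' (y.drop r) := by
    intro y hy
    rcases Nat.lt_or_ge y.length r with hl | hl
    · exact ⟨t, ht, Or.inl (by rw [List.drop_eq_nil_of_le (le_of_lt hl)]; trivial)⟩
    · obtain ⟨c, z, hyz, hor⟩ := block h hr.2 hr1 ht hl hy
      have hz : y.drop r = z := by
        rw [hyz, show pre (rv a) (r - 1) ++ c :: z = (pre (rv a) (r - 1) ++ [c]) ++ z by simp]
        apply List.drop_left'
        simp only [List.length_append, pre_length, List.length_singleton]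
        omega
      rw [hz]
      rcases hor with ⟨_, h2⟩ | ⟨_, h2, h3⟩
      · exact ⟨r, hr.1, Or.inr h2⟩
      · exact ⟨t + r, h3, Or.inl h2⟩
  rcases hy with hy | hy
  · exact key y hy
  · obtain ⟨t', h1, h2⟩ := key (y.map Fin.rev) ((Rd_swap a (0, t) y).mpr hy)
    refine ⟨t', h1, ?_⟩
    rw [← List.map_drop] at h2
    exact RdP_rev.mp h2

lemma block_iter (h : InV a a) {p : ℕ × ℕ} {r : ℕ} (hr : MinInd a p r) (hr1 : 1 ≤ r)
    {t : ℕ} (ht : Ind a p t) {y : List (Fin (M+1))} (hy : RdP a t y) (j : ℕ) :
    ∃ t', Ind a p t' ∧ RdP a t' (y.drop (j * r)) := by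
  induction j with
  | zero => exact ⟨t, ht, by simpa using hy⟩
  | succ j ih =>
    obtain ⟨t', h1, h2⟩ := ih
    obtain ⟨t'', h3, h4⟩ := block_drop h hr hr1 h1 h2
    refine ⟨t'', h3, ?_⟩
    rwa [List.drop_drop, show j * r + r = (j + 1) * r by ring] at h4

/-- every word of the language is, up to fewer than `r` symbols, readable from a pure state -/
lemma word_test (h : InV a a) (hT : Tr a) {p : ℕ × ℕ} (hp : Reach a (0, 0) p) {r : ℕ}
    (hr : MinInd a p r) (hr1 : 1 ≤ r) {w : List (Fin (M+1))} (hw : Rd a (0, 0) w) :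
    ∃ i < r, ∃ t', Ind a p t' ∧ RdP a t' (w.drop i) := by
  have key : ∃ v, RdP a r (v ++ w) := by
    rcases hr.1 with h1 | h1
    · obtain ⟨u, hu, hu'⟩ := hp.trans h1
      obtain ⟨v, hv⟩ := hT u w hu hw
      rw [Rd_append, hu'] at hv
      exact ⟨v, Or.inl hv.2⟩
    · obtain ⟨u, hu, hu'⟩ := hp.trans h1
      obtain ⟨v, hv⟩ := hT u w hu hw
      rw [Rd_append, hu'] at hv
      exact ⟨v, Or.inr hv.2⟩
  obtain ⟨v, hv⟩ := key
  obtain ⟨t', h1, h2⟩ := block_iter h hr hr1 hr.1 hv ((v.length + r - 1) / r)
  have h3 := Nat.div_add_mod (v.length + r - 1) r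
  have h4 := Nat.mod_lt (v.length + r - 1) (show 0 < r by omega)
  set j := (v.length + r - 1) / r
  have h5 : r * j = j * r := Nat.mul_comm _ _
  refine ⟨j * r - v.length, by omega, t', h1, ?_⟩
  rw [List.drop_append, List.drop_eq_nil_of_le (by omega), List.nil_append] at h2
  exact h2

/-- a point of the shift contains the first `r - 1` symbols of `a` or of its reflection -/
lemma point_test (h : InV a a) (hT : Tr a) {p : ℕ × ℕ} (hp : Reach a (0, 0) p) {r : ℕ}
    (hr : MinInd a p r) (hr1 : 1 ≤ r) {x : ℕ → Fin (M+1)} (hx : InV a x) :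
    ∃ i, (∀ l < r - 1, x (i + l) = (a l).rev) ∨ (∀ l < r - 1, x (i + l) = a l) := by
  obtain ⟨i, hi, t', h1, h2⟩ := word_test h hT hp hr hr1 (Rd_of_InV hx (r + r))
  have h3 : (pre x (r + r)).drop i = pre (sh i x) r ++ pre (sh (i + r) x) (r - i) := by
    rw [show r + r = i + (r + (r - i)) by omega, pre_add, pre_add, sh_sh]
    exact List.drop_left' (by simp)
  rw [h3] at h2
  have h4 := RdP_append h2
  refine ⟨i, ?_⟩
  rcases h4 with h4 | h4
  · left
    obtain ⟨c, z, hz, _⟩ := block h hr.2 hr1 h1 (by simp) h4
    intro l hl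
    rw [show r = (r - 1) + 1 by omega, pre_add] at hz
    obtain ⟨e, _⟩ := List.append_inj hz (by simp)
    exact (pre_congr _ _ _).mp e l hl
  · right
    have h5 := (Rd_swap a (0, t') _).mpr h4
    rw [← pre_rv] at h5
    obtain ⟨c, z, hz, _⟩ := block h hr.2 hr1 h1 (by simp) h5
    intro l hl
    rw [show r = (r - 1) + 1 by omega, pre_add] at hz
    obtain ⟨e, _⟩ := List.append_inj hz (by simp)
    have h6 := (pre_congr _ _ _).mp e l hl
    exact Fin.rev_inj.mp h6

lemma InV_of_LLe {x : ℕ → Fin (M+1)} (h1 : ∀ n, LLe (sh n x) a) (h2 : ∀ n, LLe (rv (sh n x)) a) :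
    InV a x := fun n => ⟨by simpa using LLe_rv (h2 n), h1 n⟩

/-- the least indices are at most `2` -/
lemma minInd_le (hND : ∀ k, sh k a ≠ rv a) (h : InV a a) (hT : Tr a) {p : ℕ × ℕ}
    (hp : Reach a (0, 0) p) {r : ℕ} (hr : MinInd a p r) : r ≤ 2 := by
  by_contra hcon
  have hr3 : 3 ≤ r := by omega
  have hle : (a 0).rev ≤ a 0 := by
    have := (h 0).1 0 (fun i hi => absurd hi (Nat.not_lt_zero i))
    simpa [rv, sh] using this
  by_cases hA : ∃ c, (a 0).rev < c ∧ c < a 0
  · obtain ⟨c, hc1, hc2⟩ := hA
    have hx : InV a (fun _ => c) := by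
      apply InV_of_LLe
      · intro n m hm
        rcases m with _ | m
        · exact le_of_lt hc2
        · exact absurd (hm 0 (by omega)) (ne_of_lt hc2)
      · intro n m hm
        have h3 : c.rev < a 0 := by
          have := Fin.rev_lt_rev.mpr hc1
          simpa using this
        rcases m with _ | m
        · exact le_of_lt h3
        · exact absurd (hm 0 (by omega)) (ne_of_lt h3)
    obtain ⟨i, h1 | h1⟩ := point_test h hT hp hr (by omega) hx
    · exact (ne_of_gt hc1) (h1 0 (by omega))
    · exact (ne_of_lt hc2) (h1 0 (by omega))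
  · have hne : (a 0).rev ≠ a 0 := by
      intro heq
      apply hND 0
      have hconst : ∀ x, InV a x → ∀ n, x n = a 0 := by
        intro x hx n
        apply le_antisymm
        · have := (hx n).2 0 (fun i hi => absurd hi (Nat.not_lt_zero i))
          simpa [sh] using this
        · have := (hx n).1 0 (fun i hi => absurd hi (Nat.not_lt_zero i))
          simp only [sh, rv, add_zero] at this
          rwa [heq] at this
      funext n
      rw [sh_zero, hconst a h n, hconst (rv a) (InV_rv h) n]
    have hlt : (a 0).rev < a 0 := lt_of_le_of_ne hle hne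
    have hmem : ∀ n, a n = a 0 ∨ a n = (a 0).rev := by
      intro n
      have h1 : a n ≤ a 0 := by
        have := (h n).2 0 (fun i hi => absurd hi (Nat.not_lt_zero i))
        simpa [sh] using this
      have h2 : (a 0).rev ≤ a n := by
        have := (h n).1 0 (fun i hi => absurd hi (Nat.not_lt_zero i))
        simpa [sh, rv] using this
      rcases eq_or_lt_of_le h1 with h3 | h3
      · exact Or.inl h3
      · rcases eq_or_lt_of_le h2 with h4 | h4
        · exact Or.inr h4.symm
        · exact absurd ⟨a n, h4, h3⟩ hA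
    have h11 : a 1 = a 0 := by
      rcases hmem 1 with h1 | h1
      · exact h1
      · exfalso
        apply hND 1
        have key : ∀ j, a (2 * j) = a 0 ∧ a (2 * j + 1) = (a 0).rev := by
          intro j
          induction j with
          | zero => exact ⟨rfl, h1⟩
          | succ j ih =>
            have e1 : a (2 * j + 1 + 1) = a 0 := by
              have h3 := par_lo h (n := 2 * j + 1) (m := 1) (fun i hi => by
                have : i = 0 := by omega
                subst this
                simpa using ih.2)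
              rw [h1, Fin.rev_rev] at h3
              rcases hmem (2 * j + 1 + 1) with h4 | h4
              · exact h4
              · rw [h4] at h3
                exact absurd h3 (not_le.mpr hlt)
            have e2 : a (2 * j + 1 + 1 + 1) = (a 0).rev := by
              have h3 := par_up h (n := 2 * j + 1 + 1) (m := 1) (fun i hi => by
                have : i = 0 := by omega
                subst this
                simpa using e1)
              rw [h1] at h3
              rcases hmem (2 * j + 1 + 1 + 1) with h4 | h4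
              · rw [h4] at h3
                exact absurd h3 (not_le.mpr hlt)
              · exact h4
            exact ⟨by rw [show 2 * (j + 1) = 2 * j + 1 + 1 by ring]; exact e1,
              by rw [show 2 * (j + 1) + 1 = 2 * j + 1 + 1 + 1 by ring]; exact e2⟩
        funext n
        simp only [sh, rv]
        rcases Nat.even_or_odd' n with ⟨k, rfl | rfl⟩
        · rw [show 1 + 2 * k = 2 * k + 1 by ring, (key k).2, (key k).1]
        · rw [show 1 + (2 * k + 1) = 2 * (k + 1) by ring, (key (k + 1)).1, (key k).2, Fin.rev_rev]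
    set x : ℕ → Fin (M+1) := fun i => if i % 2 = 0 then a 0 else (a 0).rev with hxdef
    have hstep : ∀ n, x (n + 1) = (x n).rev := by
      intro n
      simp only [hxdef]
      rcases Nat.mod_two_eq_zero_or_one n with h1 | h1
      · rw [if_pos h1, if_neg (show ¬ (n + 1) % 2 = 0 by omega)]
      · rw [if_neg (show ¬ n % 2 = 0 by omega), if_pos (show (n + 1) % 2 = 0 by omega),
          Fin.rev_rev]
    have hx01 : ∀ n, x n = a 0 ∨ x n = (a 0).rev := by
      intro n
      simp only [hxdef]
      split_ifs
      · exact Or.inl rfl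
      · exact Or.inr rfl
    have hup : ∀ n, LLe (sh n x) a := by
      intro n m hm
      rcases m with _ | m
      · rcases hx01 n with h1 | h1
        · simp only [sh, add_zero]; rw [h1]
        · simp only [sh, add_zero]; rw [h1]; exact hle
      · have e0 : x n = a 0 := by simpa [sh] using hm 0 (by omega)
        have e1 : x (n + 1) = (a 0).rev := by rw [hstep, e0]
        rcases m with _ | m
        · simp only [sh, zero_add]
          rw [e1, h11]
          exact hle
        · exfalso
          have e2 : x (n + 1) = a 1 := by simpa [sh] using hm 1 (by omega)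
          rw [e1, h11] at e2
          exact hne e2
    have hx : InV a x := by
      apply InV_of_LLe hup
      intro n
      have : rv (sh n x) = sh (n + 1) x := by
        funext i
        simp only [rv, sh]
        rw [show n + 1 + i = (n + i) + 1 by ring, hstep]
      rw [this]
      exact hup _
    obtain ⟨i, h1 | h1⟩ := point_test h hT hp hr (by omega) hx
    · have e0 : x i = (a 0).rev := by simpa using h1 0 (by omega)
      have e1 : x (i + 1) = (a 1).rev := h1 1 (by omega)
      rw [hstep, e0, h11, Fin.rev_rev] at e1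
      exact hne e1.symm
    · have e0 : x i = a 0 := by simpa using h1 0 (by omega)
      have e1 : x (i + 1) = a 1 := h1 1 (by omega)
      rw [hstep, e0, h11] at e1
      exact hne e1

end Pool.Agent.L5helper76.EM
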