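import Pool.Agent.L5helper76.EM.Growth

/-! # The lexicographically largest point -/

namespace Pool.Agent.L5helper76.EM

open scoped Classical

variable {M : ℕ}

lemma getElem_pre (x : ℕ → Fin (M+1)) (n i : ℕ) (hi : i < (pre x n).length) :
    (pre x n)[i] = x i := by
  induction n generalizing x i with
  | zero => simp at hi
  | succ n ih =>
    rcases i with _ | i
    · rfl
    · simp only [pre_succ, List.getElem_cons_succ]
      rw [ih]
      simp [sh, add_comm]

lemma pre_eq_iff (x : ℕ → Fin (M+1)) (u : List (Fin (M+1))) :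
    pre x u.length = u ↔ ∀ i (hi : i < u.length), x i = u[i] := by
  constructor
  · intro h i hi
    have h1 : i < (pre x u.length).length := by simpa using hi
    rw [← getElem_pre x u.length i h1]
    congr 1
  · intro h
    apply List.ext_getElem (by simp)
    intro i h1 h2
    rw [getElem_pre]
    exact h i h2

/-- `K` contains every sequence all of whose prefixes are prefixes of points of `K` -/
def LimClosed (K : Set (ℕ → Fin (M+1))) : Prop :=
  ∀ x, (∀ m, ∃ y ∈ K, ∀ i < m, y i = x i) → x ∈ K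

lemma limClosed_InV (α : ℕ → Fin (M+1)) : LimClosed {x | InV α x} := by
  intro x hx n
  constructor
  · intro m hm
    obtain ⟨y, hy, hyx⟩ := hx (n + m + 1)
    have h1 := (hy n).1 m (fun i hi => by
      rw [hm i hi]
      simp only [sh]
      exact (hyx (n + i) (by omega)).symm)
    simp only [sh] at h1 ⊢
    rwa [hyx (n + m) (by omega)] at h1
  · intro m hm
    obtain ⟨y, hy, hyx⟩ := hx (n + m + 1)
    have h1 := (hy n).2 m (fun i hi => by
      rw [← hm i hi]
      simp only [sh]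
      exact hyx (n + i) (by omega))
    simp only [sh] at h1 ⊢
    rwa [hyx (n + m) (by omega)] at h1

lemma exists_max {K : Set (ℕ → Fin (M+1))} (hK : LimClosed K) (hne : K.Nonempty) :
    ∃ a ∈ K, ∀ x ∈ K, LLe x a := by
  have step : ∀ (n : ℕ) (x : K), ∃ y : K, (∀ i < n, y.1 i = x.1 i) ∧
      ∀ z ∈ K, (∀ i < n, z i = x.1 i) → z n ≤ y.1 n := by
    intro n x
    obtain ⟨m, ⟨y, hy, rfl⟩, hmin⟩ :=
      (wellFounded_gt (α := Fin (M+1))).has_min
        ((fun z : ℕ → Fin (M+1) => z n) '' {z | z ∈ K ∧ ∀ i < n, z i = x.1 i})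
        ⟨_, x.1, ⟨x.2, fun _ _ => rfl⟩, rfl⟩
    refine ⟨⟨y, hy.1⟩, hy.2, fun z hz hzx => ?_⟩
    have := hmin (z n) ⟨z, ⟨hz, hzx⟩, rfl⟩
    exact not_lt.mp this
  choose f hf1 hf2 using step
  obtain ⟨x0, hx0⟩ := hne
  let Y : ℕ → K := fun n => Nat.rec ⟨x0, hx0⟩ (fun n x => f n x) n
  have hY : ∀ n, Y (n + 1) = f n (Y n) := fun n => rfl
  have hag : ∀ n k, ∀ i < n, (Y (n + k)).1 i = (Y n).1 i := by
    intro n k
    induction k with
    | zero => intro i _; rfl
    | succ k ih =>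
      intro i hi
      rw [← add_assoc, hY, hf1 (n + k) (Y (n + k)) i (by omega), ih i hi]
  let a : ℕ → Fin (M+1) := fun n => (Y (n + 1)).1 n
  have hYa : ∀ n, ∀ i < n, (Y n).1 i = a i := by
    intro n i hi
    obtain ⟨k, rfl⟩ := Nat.exists_eq_add_of_le (show i + 1 ≤ n by omega)
    exact hag (i + 1) k i (by omega)
  refine ⟨a, hK a (fun m => ⟨(Y m).1, (Y m).2, hYa m⟩), fun x hx n hn => ?_⟩
  have h1 := hf2 n (Y n) x hx (fun i hi => by rw [hn i hi, hYa n i hi])
  rw [← hY] at h1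
  exact h1

/-- replacing `α` by the largest point of its symmetric shift -/
lemma exists_base {α : ℕ → Fin (M+1)} (hne : ∃ x, InV α x) :
    ∃ a, InV a a ∧ ∀ x, InV α x ↔ InV a x := by
  obtain ⟨a, ha, hmax⟩ := exists_max (limClosed_InV α) hne
  have ha' : InV α a := ha
  have hmax' : ∀ x, InV α x → LLe x a := hmax
  have h1 : ∀ x, InV α x → InV a x := by
    intro x hx n
    refine ⟨?_, hmax' _ (InV_sh hx n)⟩
    have h2 := LLe_rv (hmax' _ (InV_rv (InV_sh hx n)))
    rwa [rv_rv] at h2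
  have h0 : LLe a α := by
    have := (ha' 0).2
    rwa [sh_zero] at this
  refine ⟨a, h1 a ha', fun x => ⟨h1 x, fun hx n => ?_⟩⟩
  exact ⟨LLe_trans (LLe_rv h0) (hx n).1, LLe_trans (hx n).2 h0⟩

/-- a proper limit-closed subset misses a word -/
lemma exists_missing {a : ℕ → Fin (M+1)} {X : Set (ℕ → Fin (M+1))} (hXc : LimClosed X)
    {x : ℕ → Fin (M+1)} (hx : InV a x) (hxX : x ∉ X) :
    ∃ w0, Rd a (0, 0) w0 ∧ ¬ BX X w0 := by
  by_contra hcon
  push Not at hcon
  apply hxX
  apply hXc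
  intro m
  obtain ⟨y, hy, hyp⟩ := hcon (pre x m) (Rd_of_InV hx m)
  rw [pre_length] at hyp
  exact ⟨y, hy, (pre_congr y x m).mp hyp⟩

end Pool.Agent.L5helper76.EM
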